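import Pool.Agent.N848.AW.Stm
import Pool.Agent.N615.AW.BOX

/-!
# Project AW: the lemmas XOR and TR on the systems
-/

set_option autoImplicit false
set_option linter.unusedVariables false
set_option linter.unusedSectionVars false

open scoped Classical

namespace Pool.Agent.N848.AW.XT

open Finset
open Pool.Agent.N848.AW
open Pool.Agent.N615.AW.BOX (GA_tr GB_tr Lp_tr dt_tr Cst_tr lift_ex)

section adj

variable {W : Type} [Fintype W]

/-- the constants -/
def Kst (x : W → ZMod 2) : Prop := ∃ c : ZMod 2, ∀ p, x p = c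

lemma z2 (a : ZMod 2) : a = 0 ∨ a = 1 := by
  revert a
  decide

lemma two0 (a : ZMod 2) : a + a = 0 := by
  revert a
  decide

lemma eq_of_add {a b : ZMod 2} (h : a + b = 0) : a = b := by
  revert a b
  decide

variable (R Rt : (W → ZMod 2) →ₗ[ZMod 2] (W → ZMod 2))

/-- the sum of the values -/
def sm1 : (W → ZMod 2) →ₗ[ZMod 2] ZMod 2 where
  toFun x := ∑ p, x p
  map_add' x y := Finset.sum_add_distrib
  map_smul' c x := by
    simp only [Pi.smul_apply, smul_eq_mul, RingHom.id_apply]
    rw [Finset.mul_sum]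

lemma ker_le (h : ∀ x, R x = 0 → Kst x) :
    LinearMap.ker R ≤ Submodule.span (ZMod 2) {(fun _ => 1 : W → ZMod 2)} := by
  intro x hx
  obtain ⟨c, hc⟩ := h x (LinearMap.mem_ker.1 hx)
  rw [Submodule.mem_span_singleton]
  exact ⟨c, funext fun p => by rw [hc p]; simp⟩

/-- the range of a map whose kernel has only the constants -/
lemma range_eq [Nonempty W] (h : ∀ x, R x = 0 → Kst x) (hs : ∀ x, ∑ p, R x p = 0)
    (y : W → ZMod 2) (hy : ∑ p, y p = 0) : ∃ x, R x = y := by
  have h1 : Module.finrank (ZMod 2) (LinearMap.ker R) ≤ 1 := by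
    refine (Submodule.finrank_mono (ker_le R h)).trans (le_of_eq (finrank_span_singleton ?_))
    intro h0
    obtain ⟨p⟩ := (inferInstance : Nonempty W)
    exact absurd (congrFun h0 p) (by show (1 : ZMod 2) ≠ 0; decide)
  have h2 := LinearMap.finrank_range_add_finrank_ker R
  have h3 := LinearMap.finrank_range_add_finrank_ker (sm1 (W := W))
  have h4 : LinearMap.range R ≤ LinearMap.ker (sm1 (W := W)) := by
    rintro _ ⟨x, rfl⟩
    exact LinearMap.mem_ker.2 (hs x)
  have h5 : Module.finrank (ZMod 2) (LinearMap.range (sm1 (W := W))) = 1 := by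
    have h6 : LinearMap.range (sm1 (W := W)) = ⊤ := by
      rw [LinearMap.range_eq_top]
      intro c
      obtain ⟨p⟩ := (inferInstance : Nonempty W)
      refine ⟨fun q => if q = p then c else 0, ?_⟩
      show ∑ q, (if q = p then c else 0) = c
      rw [Finset.sum_ite_eq' Finset.univ p (fun _ => c), if_pos (Finset.mem_univ _)]
    rw [h6, finrank_top, Module.finrank_self]
  have h7 : LinearMap.range R = LinearMap.ker (sm1 (W := W)) := by
    refine Submodule.eq_of_le_of_finrank_le h4 ?_
    omega
  have h8 : y ∈ LinearMap.range R := by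
    rw [h7]
    exact LinearMap.mem_ker.2 hy
  exact h8

variable {R Rt}

/-- the transpose -/
lemma trn [Nonempty W] (hadj : ∀ x x', ∑ p, x' p * R x p = ∑ p, x p * Rt x' p)
    (h1 : Rt (fun _ => 1) = 0) (h : ∀ x, R x = 0 → Kst x) (x' : W → ZMod 2) (hx : Rt x' = 0) :
    Kst x' := by
  have hs : ∀ x, ∑ p, R x p = 0 := by
    intro x
    have h2 := hadj x fun _ => 1
    rw [h1] at h2
    simpa using h2
  have key : ∀ y : W → ZMod 2, ∑ p, y p = 0 → ∑ p, x' p * y p = 0 := by
    intro y hy
    obtain ⟨x, rfl⟩ := range_eq R h hs y hy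
    rw [hadj, hx]
    simp
  obtain ⟨q⟩ := (inferInstance : Nonempty W)
  refine ⟨x' q, fun p => ?_⟩
  have h3 := key (fun r => (if r = p then 1 else 0) + if r = q then 1 else 0) (by
    rw [Finset.sum_add_distrib, Finset.sum_ite_eq' Finset.univ p (fun _ => (1 : ZMod 2)),
      Finset.sum_ite_eq' Finset.univ q (fun _ => (1 : ZMod 2)), if_pos (Finset.mem_univ _),
      if_pos (Finset.mem_univ _)]
    decide)
  simp only [mul_add, mul_ite, mul_one, mul_zero] at h3
  rw [Finset.sum_add_distrib, Finset.sum_ite_eq' Finset.univ p, Finset.sum_ite_eq' Finset.univ q,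
    if_pos (Finset.mem_univ _), if_pos (Finset.mem_univ _)] at h3
  exact eq_of_add h3

end adj

section sys

variable {W : Type} [Fintype W] (A : W → W → ZMod 2) (t g h : W → ZMod 2)

lemma dt_add (f x y : W → ZMod 2) : dt univ f (x + y) = dt univ f x + dt univ f y := by
  unfold dt
  rw [← Finset.sum_add_distrib]
  exact Finset.sum_congr rfl fun q _ => by rw [Pi.add_apply, mul_add]

lemma dt_smul (f x : W → ZMod 2) (c : ZMod 2) : dt univ f (c • x) = c * dt univ f x := by
  unfold dt
  rw [Finset.mul_sum]
  exact Finset.sum_congr rfl fun q _ => by rw [Pi.smul_apply, smul_eq_mul]; ring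

lemma Lp_add (x y : W → ZMod 2) (p : W) :
    Lp univ A (x + y) p = Lp univ A x p + Lp univ A y p := by
  unfold Lp
  rw [← Finset.sum_add_distrib]
  exact Finset.sum_congr rfl fun q _ => by simp only [Pi.add_apply]; ring

lemma Lp_smul (x : W → ZMod 2) (c : ZMod 2) (p : W) :
    Lp univ A (c • x) p = c * Lp univ A x p := by
  unfold Lp
  rw [Finset.mul_sum]
  exact Finset.sum_congr rfl fun q _ => by simp only [Pi.smul_apply, smul_eq_mul]; ring

/-- the first system -/
def RA : (W → ZMod 2) →ₗ[ZMod 2] (W → ZMod 2) where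
  toFun x := fun p => Lp univ A x p + g p * dt univ t x
  map_add' x y := by
    funext p
    simp only [Pi.add_apply]
    rw [Lp_add, dt_add]
    ring
  map_smul' c x := by
    funext p
    simp only [Pi.smul_apply, smul_eq_mul, RingHom.id_apply]
    rw [Lp_smul, dt_smul]
    ring

/-- the transpose of the first system -/
def RAt : (W → ZMod 2) →ₗ[ZMod 2] (W → ZMod 2) where
  toFun x := fun p => Lp univ A x p + t p * dt univ t x + t p * x p + t p * dt univ g x
  map_add' x y := by
    funext p
    simp only [Pi.add_apply]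
    rw [Lp_add, dt_add, dt_add]
    ring
  map_smul' c x := by
    funext p
    simp only [Pi.smul_apply, smul_eq_mul, RingHom.id_apply]
    rw [Lp_smul, dt_smul, dt_smul]
    ring

/-- the second system -/
def RB : (W → ZMod 2) →ₗ[ZMod 2] (W → ZMod 2) where
  toFun x := fun p => Lp univ A x p + t p * x p + t p * dt univ h x
  map_add' x y := by
    funext p
    simp only [Pi.add_apply]
    rw [Lp_add, dt_add]
    ring
  map_smul' c x := by
    funext p
    simp only [Pi.smul_apply, smul_eq_mul, RingHom.id_apply]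
    rw [Lp_smul, dt_smul]
    ring

/-- the transpose of the second system -/
def RBt : (W → ZMod 2) →ₗ[ZMod 2] (W → ZMod 2) where
  toFun x := fun p => Lp univ A x p + t p * dt univ t x + h p * dt univ t x
  map_add' x y := by
    funext p
    simp only [Pi.add_apply]
    rw [Lp_add, dt_add]
    ring
  map_smul' c x := by
    funext p
    simp only [Pi.smul_apply, smul_eq_mul, RingHom.id_apply]
    rw [Lp_smul, dt_smul]
    ring

variable {A t g h} (H : Hyp (univ : Finset W) A t g h)

lemma cst_iff (x : W → ZMod 2) : Cst univ x ↔ Kst x :=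
  ⟨fun ⟨c, hc⟩ => ⟨c, fun p => hc p (mem_univ p)⟩, fun ⟨c, hc⟩ => ⟨c, fun p _ => hc p⟩⟩

include H

lemma ne : Nonempty W := by
  by_contra hn
  rw [not_nonempty_iff] at hn
  have h1 := H.g1
  rw [Finset.univ_eq_empty, Finset.sum_empty] at h1
  exact absurd h1 (by decide)

/-- the polarity -/
lemma polar (x y : W → ZMod 2) :
    ∑ p, y p * Lp univ A x p + ∑ p, x p * Lp univ A y p =
      dt univ t x * dt univ t y + ∑ p, t p * (x p * y p) := by
  have e1 : ∑ p, y p * Lp univ A x p + ∑ p, x p * Lp univ A y p =
      ∑ p, ∑ q, (A p q + A q p) * (x q * y p) := by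
    have e2 : ∑ p, x p * Lp univ A y p = ∑ p, ∑ q, A p q * (x p * y p) +
        ∑ p, ∑ q, A q p * (x q * y p) := by
      rw [Finset.sum_comm (f := fun p q => A q p * (x q * y p)), ← Finset.sum_add_distrib]
      refine Finset.sum_congr rfl fun p _ => ?_
      unfold Lp
      rw [Finset.mul_sum, ← Finset.sum_add_distrib]
      exact Finset.sum_congr rfl fun q _ => by ring
    have e3 : ∑ p, y p * Lp univ A x p = ∑ p, ∑ q, A p q * (x p * y p) +
        ∑ p, ∑ q, A p q * (x q * y p) := by
      rw [← Finset.sum_add_distrib]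
      refine Finset.sum_congr rfl fun p _ => ?_
      unfold Lp
      rw [Finset.mul_sum, ← Finset.sum_add_distrib]
      exact Finset.sum_congr rfl fun q _ => by ring
    rw [e2, e3]
    have e4 : ∑ p, ∑ q, (A p q + A q p) * (x q * y p) =
        ∑ p, ∑ q, A p q * (x q * y p) + ∑ p, ∑ q, A q p * (x q * y p) := by
      rw [← Finset.sum_add_distrib]
      refine Finset.sum_congr rfl fun p _ => ?_
      rw [← Finset.sum_add_distrib]
      exact Finset.sum_congr rfl fun q _ => by ring
    rw [e4]
    have e5 := two0 (∑ p, ∑ q, A p q * (x p * y p))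
    linear_combination e5
  rw [e1]
  have e2 : dt univ t x * dt univ t y = ∑ p, ∑ q, t p * t q * (x q * y p) := by
    unfold dt
    rw [mul_comm, Finset.sum_mul_sum]
    refine Finset.sum_congr rfl fun p _ => Finset.sum_congr rfl fun q _ => by ring
  have e3 : ∀ p, ∑ q, (A p q + A q p) * (x q * y p) =
      ∑ q, t p * t q * (x q * y p) + t p * (x p * y p) := by
    intro p
    rw [← Finset.add_sum_erase univ _ (mem_univ p),
      ← Finset.add_sum_erase univ (fun q => t p * t q * (x q * y p)) (mem_univ p)]
    have e4 : ∑ q ∈ univ.erase p, (A p q + A q p) * (x q * y p) =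
        ∑ q ∈ univ.erase p, t p * t q * (x q * y p) := by
      refine Finset.sum_congr rfl fun q hq => ?_
      rw [H.rc p (mem_univ p) q (mem_univ q) (Finset.ne_of_mem_erase hq).symm]
    rw [e4, two0 (A p p)]
    have e5 : t p * t p = t p := by rcases z2 (t p) with h | h <;> rw [h] <;> decide
    rw [e5]
    have e6 := two0 (t p * (x p * y p))
    linear_combination -e6
  rw [Finset.sum_congr rfl fun p _ => e3 p, Finset.sum_add_distrib, e2]

lemma sum_mul_dt (f y : W → ZMod 2) (c : ZMod 2) : ∑ p, y p * (f p * c) = dt univ f y * c := by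
  unfold dt
  rw [Finset.sum_mul]
  exact Finset.sum_congr rfl fun p _ => by ring

lemma adjA (x y : W → ZMod 2) :
    ∑ p, y p * RA A t g x p = ∑ p, x p * RAt A t g y p := by
  have h1 := polar H x y
  have h2 : ∑ p, y p * RA A t g x p = ∑ p, y p * Lp univ A x p + dt univ g y * dt univ t x := by
    rw [← sum_mul_dt H g y, ← Finset.sum_add_distrib]
    exact Finset.sum_congr rfl fun p _ => by
      show y p * (Lp univ A x p + g p * dt univ t x) = _
      ring
  have h3 : ∑ p, x p * RAt A t g y p = ∑ p, x p * Lp univ A y p + dt univ t x * dt univ t y +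
      ∑ p, t p * (x p * y p) + dt univ t x * dt univ g y := by
    rw [← sum_mul_dt H t x (dt univ t y), ← sum_mul_dt H t x (dt univ g y),
      ← Finset.sum_add_distrib, ← Finset.sum_add_distrib, ← Finset.sum_add_distrib]
    exact Finset.sum_congr rfl fun p _ => by
      show x p * (Lp univ A y p + t p * dt univ t y + t p * y p + t p * dt univ g y) = _
      ring
  rw [h2, h3]
  have h4 := two0 (∑ p, x p * Lp univ A y p)
  linear_combination h1 - h4

lemma adjB (x y : W → ZMod 2) :
    ∑ p, y p * RB A t h x p = ∑ p, x p * RBt A t h y p := by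
  have h1 := polar H x y
  have h2 : ∑ p, y p * RB A t h x p = ∑ p, y p * Lp univ A x p + ∑ p, t p * (x p * y p) +
      dt univ t y * dt univ h x := by
    rw [← sum_mul_dt H t y, ← Finset.sum_add_distrib, ← Finset.sum_add_distrib]
    exact Finset.sum_congr rfl fun p _ => by
      show y p * (Lp univ A x p + t p * x p + t p * dt univ h x) = _
      ring
  have h3 : ∑ p, x p * RBt A t h y p = ∑ p, x p * Lp univ A y p + dt univ t x * dt univ t y +
      dt univ h x * dt univ t y := by
    rw [← sum_mul_dt H t x (dt univ t y), ← sum_mul_dt H h x (dt univ t y),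
      ← Finset.sum_add_distrib, ← Finset.sum_add_distrib]
    exact Finset.sum_congr rfl fun p _ => by
      show x p * (Lp univ A y p + t p * dt univ t y + h p * dt univ t y) = _
      ring
  rw [h2, h3]
  have h4 := two0 (∑ p, x p * Lp univ A y p)
  have h5 := two0 (∑ p, t p * (x p * y p))
  linear_combination h1 - h4 + h5

omit H in
lemma Lp_cst {x : W → ZMod 2} (hx : Kst x) (p : W) : Lp univ A x p = 0 := by
  obtain ⟨c, hc⟩ := hx
  unfold Lp
  refine Finset.sum_eq_zero fun q _ => ?_
  rw [hc p, hc q, two0, mul_zero]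

omit H in
lemma dt_cst {f x : W → ZMod 2} (hx : Kst x) (hf : ∑ p, f p = 0) : dt univ f x = 0 := by
  obtain ⟨c, hc⟩ := hx
  unfold dt
  rw [Finset.sum_congr rfl fun q _ => by rw [hc q], ← Finset.sum_mul, hf, zero_mul]

omit H in
lemma dt_one (f : W → ZMod 2) : dt univ f (fun _ => 1) = ∑ p, f p := by
  unfold dt
  exact Finset.sum_congr rfl fun q _ => mul_one _

omit H in
lemma kst_one : Kst (fun _ : W => (1 : ZMod 2)) := ⟨1, fun _ => rfl⟩

lemma RAt_one : RAt A t g (fun _ => 1) = 0 := by
  funext p
  show Lp univ A (fun _ => 1) p + t p * dt univ t (fun _ => 1) + t p * 1 +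
    t p * dt univ g (fun _ => 1) = 0
  rw [Lp_cst kst_one, dt_one, dt_one, H.t0, H.g1, mul_zero, mul_one, zero_add, zero_add, two0]

lemma RA_one : RA A t g (fun _ => 1) = 0 := by
  funext p
  show Lp univ A (fun _ => 1) p + g p * dt univ t (fun _ => 1) = 0
  rw [Lp_cst kst_one, dt_one, H.t0, mul_zero, zero_add]

lemma RB_one : RB A t h (fun _ => 1) = 0 := by
  funext p
  show Lp univ A (fun _ => 1) p + t p * 1 + t p * dt univ h (fun _ => 1) = 0
  rw [Lp_cst kst_one, dt_one, H.h1, mul_one, zero_add, two0]

lemma RBt_one : RBt A t h (fun _ => 1) = 0 := by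
  funext p
  show Lp univ A (fun _ => 1) p + t p * dt univ t (fun _ => 1) + h p * dt univ t (fun _ => 1) = 0
  rw [Lp_cst kst_one, dt_one, H.t0, mul_zero, mul_zero, zero_add, zero_add]

omit H in
lemma ga_iff : GA univ A t g ↔ ∀ x, RA A t g x = 0 → Kst x := by
  unfold GA
  constructor
  · intro k x hx
    exact (cst_iff x).1 (k x fun p _ => congrFun hx p)
  · intro k x hx
    exact (cst_iff x).2 (k x (funext fun p => hx p (mem_univ p)))

omit H in
lemma gat_iff : GAt univ A t g ↔ ∀ x, RAt A t g x = 0 → Kst x := by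
  unfold GAt
  constructor
  · intro k x hx
    exact (cst_iff x).1 (k x fun p _ => congrFun hx p)
  · intro k x hx
    exact (cst_iff x).2 (k x (funext fun p => hx p (mem_univ p)))

omit H in
lemma gb_iff : GB univ A t h ↔ ∀ x, RB A t h x = 0 → Kst x := by
  unfold GB
  constructor
  · intro k x hx
    exact (cst_iff x).1 (k x fun p _ => congrFun hx p)
  · intro k x hx
    exact (cst_iff x).2 (k x (funext fun p => hx p (mem_univ p)))

omit H in
lemma gbt_iff : GBt univ A t h ↔ ∀ x, RBt A t h x = 0 → Kst x := by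
  unfold GBt
  constructor
  · intro k x hx
    exact (cst_iff x).1 (k x fun p _ => congrFun hx p)
  · intro k x hx
    exact (cst_iff x).2 (k x (funext fun p => hx p (mem_univ p)))

lemma tr_A (k : GA univ A t g) : GAt univ A t g := by
  have := ne H
  rw [ga_iff] at k
  rw [gat_iff]
  exact trn (adjA H) (RAt_one H) k

lemma tr_B (k : GB univ A t h) : GBt univ A t h := by
  have := ne H
  rw [gb_iff] at k
  rw [gbt_iff]
  exact trn (adjB H) (RBt_one H) k

lemma tr_Bt (k : GBt univ A t h) : GB univ A t h := by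
  have := ne H
  rw [gbt_iff] at k
  rw [gb_iff]
  exact trn (fun x y => (adjB H y x).symm) (RB_one H) k

/-- the third system in terms of the first -/
lemma gc_iff : GC univ A t g h ↔ ∀ (x : W → ZMod 2) (y : ZMod 2), dt univ t x = 0 →
    (∀ p, RA A t g x p = y * (t p + g p + h p)) → Kst x ∧ y = 0 := by
  unfold GC
  have key : ∀ (x : W → ZMod 2) (y : ZMod 2) (p : W), dt univ t x = 0 →
      (Lp univ A x p + y * (t p + g p + h p) = 0 ↔ RA A t g x p = y * (t p + g p + h p)) := by
    intro x y p h0
    show _ ↔ Lp univ A x p + g p * dt univ t x = _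
    rw [h0, mul_zero, add_zero]
    constructor
    · exact fun h => eq_of_add h
    · intro h
      rw [h, two0]
  constructor
  · intro k x y h0 h1
    obtain ⟨k1, k2⟩ := k x y h0 fun p _ => (key x y p h0).2 (h1 p)
    exact ⟨(cst_iff x).1 k1, k2⟩
  · intro k x y h0 h1
    obtain ⟨k1, k2⟩ := k x y h0 fun p => (key x y p h0).1 (h1 p (mem_univ p))
    exact ⟨(cst_iff x).2 k1, k2⟩

/-- the transpose of the second system in terms of the first -/
lemma rbt_eq (x : W → ZMod 2) (p : W) :
    RBt A t h x p = RA A t g x p + (t p + g p + h p) * dt univ t x := by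
  show Lp univ A x p + t p * dt univ t x + h p * dt univ t x =
    Lp univ A x p + g p * dt univ t x + (t p + g p + h p) * dt univ t x
  have := two0 (g p * dt univ t x)
  linear_combination -this

lemma kst_sub {x y : W → ZMod 2} (h1 : RA A t g x = RA A t g y)
    (k : ∀ x, RA A t g x = 0 → Kst x) : dt univ t x = dt univ t y := by
  have h2 : RA A t g (x + y) = 0 := by
    rw [map_add, h1]
    funext p
    exact two0 _
  have h3 := dt_cst (k _ h2) H.t0
  rw [dt_add] at h3
  exact eq_of_add h3

theorem xor_univ : GC univ A t g h ↔ ¬ (GA univ A t g ↔ GB univ A t h) := by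
  have := ne H
  have hBB : GB univ A t h ↔ GBt univ A t h := ⟨tr_B H, tr_Bt H⟩
  rw [hBB, gbt_iff, gc_iff H]
  have one_ne : (1 : ZMod 2) ≠ 0 := by decide
  by_cases hA : GA univ A t g
  · have k := ga_iff.1 hA
    have hs : ∀ x, ∑ p, RA A t g x p = 0 := by
      intro x
      have h2 := adjA H x fun _ => 1
      rw [RAt_one H] at h2
      simpa using h2
    obtain ⟨z, hz⟩ := range_eq (RA A t g) k hs (fun p => t p + g p + h p) (by
      rw [Finset.sum_add_distrib, Finset.sum_add_distrib, H.t0, H.g1, H.h1]
      decide)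
    have hz' : ∀ p, RA A t g z p = t p + g p + h p := fun p => congrFun hz p
    have b : (∀ x, RBt A t h x = 0 → Kst x) ↔ dt univ t z = 0 := by
      constructor
      · intro hb
        rcases z2 (dt univ t z) with h0 | h0
        · exact h0
        · exfalso
          have h2 : RBt A t h z = 0 := by
            funext p
            rw [rbt_eq H, hz', h0, mul_one]
            exact two0 _
          have h3 := dt_cst (hb z h2) H.t0
          rw [h3] at h0
          exact one_ne h0.symm
      · intro h0 x hx
        rcases z2 (dt univ t x) with h1 | h1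
        · refine k x (funext fun p => ?_)
          have h2 := congrFun hx p
          rw [rbt_eq H, h1, mul_zero, add_zero] at h2
          exact h2
        · exfalso
          have h2 : RA A t g x = RA A t g z := by
            funext p
            have h2 := congrFun hx p
            rw [rbt_eq H, h1, mul_one] at h2
            rw [hz']
            exact eq_of_add h2
          have h3 := kst_sub H h2 k
          rw [h0, h1] at h3
          exact one_ne h3
    have c : (∀ (x : W → ZMod 2) (y : ZMod 2), dt univ t x = 0 →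
        (∀ p, RA A t g x p = y * (t p + g p + h p)) → Kst x ∧ y = 0) ↔ dt univ t z ≠ 0 := by
      constructor
      · intro hc h0
        exact one_ne (hc z 1 h0 fun p => by rw [hz', one_mul]).2
      · intro h0 x y h1 h2
        rcases z2 y with rfl | rfl
        · exact ⟨k x (funext fun p => by rw [h2 p, zero_mul]; rfl), rfl⟩
        · exfalso
          have h3 : RA A t g x = RA A t g z := by
            funext p
            rw [h2, hz', one_mul]
          exact h0 (by rw [← kst_sub H h3 k]; exact h1)
    rw [b, c]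
    simp only [hA, true_iff]
  · have hA' := hA
    rw [ga_iff] at hA'
    push Not at hA'
    obtain ⟨x0, hx0, hn0⟩ := hA'
    have hx0' : ∀ p, RA A t g x0 p = 0 := fun p => congrFun hx0 p
    simp only [hA, false_iff, not_not]
    constructor
    · intro hc x hx
      have ht0 : dt univ t x0 = 1 := by
        rcases z2 (dt univ t x0) with h | h
        · exact absurd (hc x0 0 h fun p => by rw [hx0', zero_mul]).1 hn0
        · exact h
      have hxp : ∀ p, RA A t g x p = dt univ t x * (t p + g p + h p) := by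
        intro p
        have h2 := congrFun hx p
        rw [rbt_eq H] at h2
        rw [mul_comm]
        exact eq_of_add h2
      rcases z2 (dt univ t x) with h1 | h1
      · exact (hc x 0 h1 fun p => by rw [hxp, h1]).1
      · exfalso
        refine one_ne (hc (x + x0) 1 (by rw [dt_add, h1, ht0]; decide) fun p => ?_).2
        rw [map_add, Pi.add_apply, hxp, hx0', h1, add_zero]
    · intro hb x y h1 h2
      have ht0 : dt univ t x0 = 1 := by
        rcases z2 (dt univ t x0) with h | h
        · exact absurd (hb x0 (funext fun p => by rw [rbt_eq H, hx0', h, mul_zero, add_zero]; rfl))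
            hn0
        · exact h
      rcases z2 y with rfl | rfl
      · exact ⟨hb x (funext fun p => by rw [rbt_eq H, h2, h1, zero_mul, mul_zero, add_zero]; rfl),
          rfl⟩
      · exfalso
        have h3 : Kst (x + x0) := by
          refine hb _ (funext fun p => ?_)
          rw [rbt_eq H, map_add, Pi.add_apply, h2, hx0', dt_add, h1, ht0, zero_add, mul_one,
            add_zero, one_mul]
          exact two0 _
        have h4 := dt_cst h3 H.t0
        rw [dt_add, h1, ht0, zero_add] at h4
        exact one_ne h4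

end sys

/-! ### The transport -/

section tr

variable {V W : Type} [Fintype W] {S : Finset V} {φ : W → V} {A : V → V → ZMod 2}
  {M : W → W → ZMod 2}

theorem GC_tr (hφ : Function.Injective φ) (hS : ∀ x, x ∈ S ↔ ∃ w, φ w = x)
    (hM : ∀ v w, v ≠ w → M v w = A (φ v) (φ w)) (t g h : V → ZMod 2) :
    GC S A t g h ↔ GC univ M (fun w => t (φ w)) (fun w => g (φ w)) (fun w => h (φ w)) := by
  constructor
  · intro k y c h0 hy
    obtain ⟨x, rfl⟩ := lift_ex hφ y
    rw [← Cst_tr hS]
    rw [← dt_tr hφ hS] at h0
    refine k x c h0 fun p hp => ?_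
    rw [hS] at hp
    obtain ⟨w, rfl⟩ := hp
    rw [Lp_tr hφ hS hM]
    exact hy w (Finset.mem_univ _)
  · intro k x c h0 hx
    rw [Cst_tr hS]
    rw [dt_tr hφ hS] at h0
    refine k _ c h0 fun w _ => ?_
    have h1 := hx (φ w) ((hS _).2 ⟨w, rfl⟩)
    rw [Lp_tr hφ hS hM] at h1
    exact h1

theorem GAt_tr (hφ : Function.Injective φ) (hS : ∀ x, x ∈ S ↔ ∃ w, φ w = x)
    (hM : ∀ v w, v ≠ w → M v w = A (φ v) (φ w)) (t g : V → ZMod 2) :
    GAt S A t g ↔ GAt univ M (fun w => t (φ w)) (fun w => g (φ w)) := by
  constructor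
  · intro k y hy
    obtain ⟨x, rfl⟩ := lift_ex hφ y
    rw [← Cst_tr hS]
    refine k x fun p hp => ?_
    rw [hS] at hp
    obtain ⟨w, rfl⟩ := hp
    rw [Lp_tr hφ hS hM, dt_tr hφ hS, dt_tr hφ hS]
    exact hy w (Finset.mem_univ _)
  · intro k x hx
    rw [Cst_tr hS]
    refine k _ fun w _ => ?_
    have h1 := hx (φ w) ((hS _).2 ⟨w, rfl⟩)
    rw [Lp_tr hφ hS hM, dt_tr hφ hS, dt_tr hφ hS] at h1
    exact h1

theorem GBt_tr (hφ : Function.Injective φ) (hS : ∀ x, x ∈ S ↔ ∃ w, φ w = x)
    (hM : ∀ v w, v ≠ w → M v w = A (φ v) (φ w)) (t h : V → ZMod 2) :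
    GBt S A t h ↔ GBt univ M (fun w => t (φ w)) (fun w => h (φ w)) := by
  constructor
  · intro k y hy
    obtain ⟨x, rfl⟩ := lift_ex hφ y
    rw [← Cst_tr hS]
    refine k x fun p hp => ?_
    rw [hS] at hp
    obtain ⟨w, rfl⟩ := hp
    rw [Lp_tr hφ hS hM, dt_tr hφ hS]
    exact hy w (Finset.mem_univ _)
  · intro k x hx
    rw [Cst_tr hS]
    refine k _ fun w _ => ?_
    have h1 := hx (φ w) ((hS _).2 ⟨w, rfl⟩)
    rw [Lp_tr hφ hS hM, dt_tr hφ hS] at h1
    exact h1

end tr

lemma sub_mem {V : Type} (S : Finset V) (x : V) : x ∈ S ↔ ∃ w : S, (w : V) = x :=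
  ⟨fun h => ⟨⟨x, h⟩, rfl⟩, fun ⟨w, hw⟩ => hw ▸ w.2⟩

lemma hyp_tr {V : Type} {S : Finset V} {A : V → V → ZMod 2} {t g h : V → ZMod 2}
    (H : Hyp S A t g h) : Hyp (univ : Finset S) (fun v w : S => A v w) (fun w : S => t w)
      (fun w : S => g w) (fun w : S => h w) :=
  ⟨fun p _ q _ hne => H.rc p p.2 q q.2 fun h => hne (Subtype.ext h),
    by rw [Finset.sum_coe_sort S t]; exact H.t0, by rw [Finset.sum_coe_sort S g]; exact H.g1,
    by rw [Finset.sum_coe_sort S h]; exact H.h1⟩

/-- **AW-XOR.** -/
theorem t_XOR : S_XOR := by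
  intro V S A t g h H
  have hi : Function.Injective (Subtype.val : S → V) := Subtype.val_injective
  have hM : ∀ v w : S, v ≠ w → (fun v w : S => A v w) v w = A v w := fun _ _ _ => rfl
  rw [GC_tr hi (sub_mem S) hM, GA_tr hi (sub_mem S) hM, GB_tr hi (sub_mem S) hM]
  exact xor_univ (hyp_tr H)

/-- **AW-TR.** -/
theorem t_TR : S_TR := by
  intro V S A t g h H
  have hi : Function.Injective (Subtype.val : S → V) := Subtype.val_injective
  have hM : ∀ v w : S, v ≠ w → (fun v w : S => A v w) v w = A v w := fun _ _ _ => rfl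
  rw [GA_tr hi (sub_mem S) hM, GB_tr hi (sub_mem S) hM, GAt_tr hi (sub_mem S) hM,
    GBt_tr hi (sub_mem S) hM]
  exact ⟨tr_A (hyp_tr H), tr_B (hyp_tr H)⟩

end Pool.Agent.N848.AW.XT
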