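import Pool.Agent.N848.AW.Stm
import Pool.Agent.N848.W.AlgB
import Pool.Agent.R426.QK.Tr

/-!
# The elements that satisfy the local conditions, for all weights

`D` is an element of the class `Cls5` and `S` the set of its primary prime divisors. If the two systems
`GA`, `GB` have only the constant solutions then the elements which satisfy the local conditions for
`m = D` or `m = -D`, with the strict condition at `w` or at its conjugate, are `1` and `m`.
-/

set_option autoImplicit false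
set_option linter.unusedSectionVars false

open scoped Classical

namespace Pool.Agent.N848.AW

open Finset
open Pool.Agent.R426.QD (r4 r4_eq r4_a)
open Pool.Agent.R426 Pool.Agent.R426.QK
open Pool.Agent.Y698
open Pool.Agent.Y698.SG hiding PD
open H667R3 Pool.Agent.W192.HK Pool.Agent.TH936.CM Pool.Agent.TH936.PU

/-- squares modulo `π` -/
def SqR (π x : RR) : Prop := ∃ y : RR, π ∣ x - y ^ 2

/-- the elements that satisfy the local conditions are `1` and `m` -/
def AlgR (m ϖ ϖ' : RR) : Prop :=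
  ∀ δ : RR, Squarefree δ → ¬ ϖ ∣ δ → (∀ π, Prime π → π ∣ δ → π ∣ ϖ' ∨ π ∣ m) →
    (ϖ ^ 3 ∣ δ - 1 ∨ ϖ ^ 3 ∣ δ * m - 1) →
    (∀ π, Prime π → π ∣ m → (¬ π ∣ δ ∧ SqR π δ) ∨
      ∃ δ1 m1, δ = π * δ1 ∧ m = π * m1 ∧ SqR π (δ1 * m1)) → δ = 1 ∨ δ = m

/-! ### The symbols -/

lemma cs_mul {π x y : RR} (h : Pq π) (hx : ¬ π ∣ x) (hy : ¬ π ∣ y) :
    cs π (x * y) = cs π x + cs π y := by
  unfold cs
  rw [sy_mul' h, lg_mul (sy_pm hx) (sy_pm hy)]

lemma cs_one {π : RR} (h : Pq π) : cs π 1 = 0 := by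
  unfold cs
  rw [sy_one' h, lg_one]

lemma cs_sq {π x : RR} (hx : ¬ π ∣ x) (h : SqR π x) : cs π x = 0 := by
  unfold cs
  rw [N848.W.sy_one_of (fun h1 => hx (mem_sp.1 h1)) h, lg_one]

/-- the sign -/
noncomputable def sg (e : ZMod 2) : RR := if e = 0 then 1 else -1

/-- the power of the other prime -/
noncomputable def pw (a : ZMod 2) (ϖ' : RR) : RR := if a = 0 then 1 else ϖ'

lemma zm (a : ZMod 2) : a = 0 ∨ a = 1 := by
  revert a
  decide

lemma sg_zero : sg 0 = 1 := by unfold sg; simp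
lemma sg_one : sg 1 = -1 := by unfold sg; simp
lemma pw_zero (ϖ' : RR) : pw 0 ϖ' = 1 := by unfold pw; simp
lemma pw_one (ϖ' : RR) : pw 1 ϖ' = ϖ' := by unfold pw; simp

lemma not_dvd_sg {π : RR} (h : Pq π) (e : ZMod 2) : ¬ π ∣ sg e := by
  intro h1
  apply h.prime.not_isUnit
  rcases zm e with rfl | rfl
  · rw [sg_zero] at h1
    exact isUnit_of_dvd_one h1
  · rw [sg_one, dvd_neg] at h1
    exact isUnit_of_dvd_one h1

lemma cs_sg {π : RR} (h : Pq π) (e : ZMod 2) : cs π (sg e) = e * cs π (-1) := by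
  rcases zm e with rfl | rfl
  · rw [sg_zero, cs_one h, zero_mul]
  · rw [sg_one, one_mul]

lemma not_dvd_pw {π ϖ' : RR} (h : Pq π) (hϖ' : ¬ π ∣ ϖ') (a : ZMod 2) : ¬ π ∣ pw a ϖ' := by
  rcases zm a with rfl | rfl
  · rw [pw_zero]
    exact fun h1 => h.prime.not_isUnit (isUnit_of_dvd_one h1)
  · rw [pw_one]
    exact hϖ'

lemma cs_pw {π : RR} (h : Pq π) (ϖ' : RR) (a : ZMod 2) : cs π (pw a ϖ') = a * cs π ϖ' := by
  rcases zm a with rfl | rfl
  · rw [pw_zero, cs_one h, zero_mul]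
  · rw [pw_one, one_mul]

lemma cs_set {π : RR} (h : Pq π) {U : Finset RR} (hU : ∀ q ∈ U, Pq q) (hπ : π ∉ U) :
    (¬ π ∣ ∏ q ∈ U, q) ∧ cs π (∏ q ∈ U, q) = ∑ q ∈ U, cs π q := by
  induction U using Finset.induction_on with
  | empty =>
    rw [prod_empty, sum_empty]
    exact ⟨fun h1 => h.prime.not_isUnit (isUnit_of_dvd_one h1), cs_one h⟩
  | insert a s ha ih =>
    obtain ⟨h1, h2⟩ := ih (fun q hq => hU q (mem_insert_of_mem hq))
      (fun h3 => hπ (mem_insert_of_mem h3))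
    have h3 : ¬ π ∣ a := fun hd => hπ (by
      rw [eq_of_dvd h (hU a (mem_insert_self a s)) hd]
      exact mem_insert_self a s)
    rw [prod_insert ha, sum_insert ha, cs_mul h h3 h1, h2]
    exact ⟨fun hd => (h.prime.dvd_or_dvd hd).elim h3 h1, rfl⟩

lemma cs_gen {π ϖ' : RR} (h : Pq π) (hϖ' : ¬ π ∣ ϖ') {U : Finset RR} (hU : ∀ q ∈ U, Pq q)
    (hπ : π ∉ U) (e a : ZMod 2) : (¬ π ∣ sg e * (pw a ϖ' * ∏ q ∈ U, q)) ∧
      cs π (sg e * (pw a ϖ' * ∏ q ∈ U, q)) = e * cs π (-1) + (a * cs π ϖ' + ∑ q ∈ U, cs π q) := by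
  obtain ⟨h1, h2⟩ := cs_set h hU hπ
  have h3 : ¬ π ∣ pw a ϖ' * ∏ q ∈ U, q := fun hd =>
    (h.prime.dvd_or_dvd hd).elim (not_dvd_pw h hϖ' a) h1
  refine ⟨fun hd => (h.prime.dvd_or_dvd hd).elim (not_dvd_sg h e) h3, ?_⟩
  rw [cs_mul h (not_dvd_sg h e) h3, cs_mul h (not_dvd_pw h hϖ' a) h1, cs_sg h, cs_pw h, h2]

/-! ### The Laplacian -/

lemma dbl (a : ZMod 2) : a + a = 0 := by
  revert a
  decide

/-- the sum of the rows -/
lemma sum_Lp {V : Type} (S : Finset V) (A : V → V → ZMod 2) (t : V → ZMod 2)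
    (hr : ∀ p ∈ S, ∀ q ∈ S, p ≠ q → A p q + A q p = t p * t q) (h0 : ∑ p ∈ S, t p = 0)
    (x : V → ZMod 2) : ∑ p ∈ S, Lp S A x p = dt S t x := by
  unfold Lp dt
  have e1 : ∑ p ∈ S, ∑ q ∈ S, A p q * (x p + x q) =
      ∑ p ∈ S, x p * ∑ q ∈ S, (A p q + A q p) := by
    have e2 : ∑ p ∈ S, ∑ q ∈ S, A p q * (x p + x q) =
        ∑ p ∈ S, ∑ q ∈ S, A p q * x p + ∑ p ∈ S, ∑ q ∈ S, A p q * x q := by
      rw [← sum_add_distrib]
      refine sum_congr rfl fun p _ => ?_
      rw [← sum_add_distrib]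
      exact sum_congr rfl fun q _ => by ring
    rw [e2, sum_comm (f := fun p q => A p q * x q), ← sum_add_distrib]
    refine sum_congr rfl fun p _ => ?_
    rw [← sum_add_distrib, mul_sum]
    exact sum_congr rfl fun q _ => by ring
  rw [e1]
  refine sum_congr rfl fun p hp => ?_
  have e3 : ∑ q ∈ S, (A p q + A q p) = t p := by
    have e4 : ∀ q ∈ S, A p q + A q p = t p * t q + if q = p then t p else 0 := by
      intro q hq
      by_cases h : q = p
      · subst h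
        rw [if_pos rfl, dbl]
        have : ∀ z : ZMod 2, (0 : ZMod 2) = z * z + z := by decide
        exact this _
      · rw [if_neg h, add_zero]
        exact hr p hp q hq (Ne.symm h)
    rw [sum_congr rfl e4, sum_add_distrib, ← mul_sum, h0, mul_zero, zero_add,
      sum_ite_eq' S p (fun _ => t p), if_pos hp]
  rw [e3, mul_comm]

lemma sum_filter_x {V : Type} (S : Finset V) (f x : V → ZMod 2) :
    ∑ q ∈ S.filter (fun q => x q = 1), f q = ∑ q ∈ S, f q * x q := by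
  rw [sum_filter]
  refine sum_congr rfl fun q _ => ?_
  rcases zm (x q) with h | h
  · rw [h, if_neg (by decide), mul_zero]
  · rw [h, if_pos rfl, mul_one]

/-- the equation at a prime, with the other symbols -/
lemma rc_sum (hrec : RecP) {S : Finset RR} (hS : ∀ π ∈ S, Pq π) (h0 : ∑ π ∈ S, tt π = 0)
    (x : RR → ZMod 2) {π : RR} (hπ : π ∈ S) :
    ∑ q ∈ S, cs π q * (x π + x q) = Lp S cA x π + tt π * dt S tt x := by
  have e1 : ∀ q ∈ S, cs π q * (x π + x q) =
      cA π q * (x π + x q) + (tt π * (tt q * x π) + tt π * (tt q * x q)) := by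
    intro q hq
    by_cases h : π = q
    · subst h
      rw [dbl (x π), mul_zero, mul_zero, zero_add, dbl]
    · have h1 := hrec π q (hS π hπ) (hS q hq) h
      have h2 : cs π q = cA π q + tt π * tt q := by
        show cs π q = cs q π + tt π * tt q
        rw [← h1]
        have : ∀ a b : ZMod 2, a = b + (a + b) := by decide
        exact this _ _
      rw [h2]
      ring
  rw [sum_congr rfl e1, sum_add_distrib, sum_add_distrib, ← mul_sum, ← sum_mul, h0, zero_mul,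
    mul_zero, zero_add, ← mul_sum]
  rfl

/-! ### The decomposition -/

theorem decomp {S : Finset RR} (hS : ∀ π ∈ S, Pq π) {ϖ' : RR} (hϖp : Prime ϖ')
    (hϖ' : ∀ π ∈ S, ¬ π ∣ ϖ') {δ : RR} (hδ : Squarefree δ)
    (hsup : ∀ ρ, Prime ρ → ρ ∣ δ → ρ ∣ ϖ' ∨ ρ ∣ ∏ π ∈ S, π) :
    ∃ (x : RR → ZMod 2) (e a : ZMod 2),
      δ = sg e * (pw a ϖ' * ∏ q ∈ S.filter (fun q => x q = 1), q) ∧
      ∀ π ∈ S, (x π = 1 ↔ π ∣ δ) := by
  classical
  obtain ⟨x, hx⟩ : ∃ x : RR → ZMod 2, ∀ q, (x q = 1 ↔ q ∣ δ) := by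
    refine ⟨fun q => if q ∣ δ then 1 else 0, fun q => ?_⟩
    by_cases h : q ∣ δ <;> simp [h]
  set T := S.filter (fun q => x q = 1) with hT
  have hTI : T ⊆ S := Finset.filter_subset _ _
  have hTd : (∏ i ∈ T, i) ∣ δ := by
    refine Finset.prod_dvd_of_coprime ?_ ?_
    · intro i hi j hj hij
      exact pq_cop (hS i (hTI hi)) (hS j (hTI hj)) hij
    · intro i hi
      exact (hx i).1 (Finset.mem_filter.1 hi).2
  obtain ⟨a, ha⟩ : ∃ a : ZMod 2, (a = 1 ↔ ϖ' ∣ δ) := by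
    refine ⟨if ϖ' ∣ δ then 1 else 0, ?_⟩
    by_cases h : ϖ' ∣ δ <;> simp [h]
  have had : pw a ϖ' * ∏ i ∈ T, i ∣ δ := by
    rcases zm a with h1 | h1
    · rw [h1, pw_zero, one_mul]
      exact hTd
    · rw [h1, pw_one]
      refine IsCoprime.mul_dvd ?_ (ha.1 h1) hTd
      refine IsCoprime.prod_right fun i hi => ?_
      refine ((hS i (hTI hi)).prime.irreducible.coprime_iff_not_dvd.2 (hϖ' i (hTI hi))).symm
  obtain ⟨u, hu⟩ := had
  have huu : IsUnit u := by
    by_contra hnu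
    have hu0 : u ≠ 0 := by
      rintro rfl
      exact hδ.ne_zero (by rw [hu, mul_zero])
    obtain ⟨ρ, hρ, hρu⟩ := WfDvdMonoid.exists_irreducible_factor hnu hu0
    have hρ' : Prime ρ := hρ.prime
    have h1 : ρ ∣ δ := by rw [hu]; exact hρu.mul_left _
    have hass : ∀ l : RR, Prime l → ρ ∣ l → l ∣ ρ := fun l hl h2 =>
      ((hρ.associated_of_dvd hl.irreducible h2).symm).dvd
    rcases hsup ρ hρ' h1 with h7 | h7
    · have h2 := hass ϖ' hϖp h7
      have h3 : ϖ' ∣ δ := h2.trans h1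
      have e1 : a = 1 := ha.2 h3
      rw [e1, pw_one] at hu
      have h4 : ϖ' * ϖ' ∣ δ := by
        rw [hu]
        exact mul_dvd_mul (Dvd.intro _ rfl) (h2.trans hρu)
      exact hϖp.not_isUnit (hδ _ h4)
    · obtain ⟨l, hl, hρl⟩ := (hρ'.dvd_finsetProd_iff _).1 h7
      have h2 := hass _ (hS l hl).prime hρl
      have h4 : l ∈ T := Finset.mem_filter.2 ⟨hl, (hx l).2 (h2.trans h1)⟩
      have h5 : l * l ∣ δ := by
        rw [hu]
        exact mul_dvd_mul ((Finset.dvd_prod_of_mem _ h4).mul_left _) (h2.trans hρu)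
      exact (hS l hl).prime.not_isUnit (hδ _ h5)
  rcases isUnit_iff.1 huu with h1 | h1
  · exact ⟨x, 0, a, by rw [hu, h1, sg_zero, one_mul, mul_one], fun π _ => hx π⟩
  · exact ⟨x, 1, a, by rw [hu, h1, sg_one]; ring, fun π _ => hx π⟩

/-! ### The equations -/

/-- **The local conditions at the prime divisors of `m`, as linear equations.** -/
theorem master (hrec : RecP) (hm1 : ∀ π : RR, Pq π → cs π (-1) = tt π) {S : Finset RR}
    (hS : ∀ π ∈ S, Pq π) (h0 : ∑ π ∈ S, tt π = 0) (em : ZMod 2) {ϖ' : RR} (hϖp : Prime ϖ')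
    (hϖ' : ∀ π ∈ S, ¬ π ∣ ϖ') {c' : RR → ZMod 2} (hc : ∀ π ∈ S, cs π ϖ' = c' π)
    (hc1 : ∑ π ∈ S, c' π = 1) {δ : RR} (hδ : Squarefree δ)
    (hsup : ∀ ρ, Prime ρ → ρ ∣ δ → ρ ∣ ϖ' ∨ ρ ∣ sg em * ∏ π ∈ S, π)
    (hloc : ∀ π, Prime π → π ∣ sg em * ∏ π ∈ S, π → (¬ π ∣ δ ∧ SqR π δ) ∨
      ∃ δ1 m1, δ = π * δ1 ∧ sg em * ∏ π ∈ S, π = π * m1 ∧ SqR π (δ1 * m1)) :
    ∃ (x : RR → ZMod 2) (e a : ZMod 2),
      δ = sg e * (pw a ϖ' * ∏ q ∈ S.filter (fun q => x q = 1), q) ∧
      (∀ π ∈ S, Lp S cA x π + tt π * dt S tt x + (e + em * x π) * tt π + a * c' π = 0) ∧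
      a = (1 + em) * dt S tt x := by
  classical
  have hsup' : ∀ ρ, Prime ρ → ρ ∣ δ → ρ ∣ ϖ' ∨ ρ ∣ ∏ π ∈ S, π := by
    intro ρ hρ h1
    rcases hsup ρ hρ h1 with h2 | h2
    · exact Or.inl h2
    · right
      rcases zm em with h3 | h3
      · rwa [h3, sg_zero, one_mul] at h2
      · rwa [h3, sg_one, neg_one_mul, dvd_neg] at h2
  obtain ⟨x, e, a, hd, hx⟩ := decomp hS hϖp hϖ' hδ hsup'
  have key : ∀ π ∈ S,
      Lp S cA x π + tt π * dt S tt x + (e + em * x π) * tt π + a * c' π = 0 := by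
    intro π hπ
    have hP := hS π hπ
    have hπm : π ∣ sg em * ∏ π ∈ S, π := (Finset.dvd_prod_of_mem _ hπ).mul_left _
    rw [← rc_sum hrec hS h0 x hπ, ← hm1 π hP, ← hc π hπ]
    rcases hloc π hP.prime hπm with ⟨h1, h2⟩ | ⟨δ1, m1, h1, h2, h3⟩
    · -- `π` does not divide `δ`
      have hx0 : x π = 0 := (zm (x π)).resolve_right fun h => h1 ((hx π hπ).1 h)
      have hnT : π ∉ S.filter (fun q => x q = 1) := by
        intro h
        rw [mem_filter, hx0] at h
        exact zero_ne_one h.2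
      obtain ⟨-, h4⟩ := cs_gen hP (hϖ' π hπ) (U := S.filter (fun q => x q = 1))
        (fun q hq => hS q (mem_filter.1 hq).1) hnT e a
      rw [← hd, cs_sq h1 h2, sum_filter_x] at h4
      have h5 : ∑ q ∈ S, cs π q * (x π + x q) = ∑ q ∈ S, cs π q * x q :=
        sum_congr rfl fun q _ => by rw [hx0, zero_add]
      rw [h5, hx0]
      linear_combination -h4
    · -- `π` divides `δ`
      have hx1 : x π = 1 := (hx π hπ).2 ⟨δ1, h1⟩
      have hT : π ∈ S.filter (fun q => x q = 1) := mem_filter.2 ⟨hπ, hx1⟩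
      have e1 : δ1 = sg e * (pw a ϖ' * ∏ q ∈ (S.filter (fun q => x q = 1)).erase π, q) := by
        apply mul_left_cancel₀ hP.prime.ne_zero
        rw [← h1, hd, ← Finset.mul_prod_erase _ (fun q => q) hT]
        ring
      have e2 : m1 = sg em * (pw 0 ϖ' * ∏ q ∈ S.erase π, q) := by
        apply mul_left_cancel₀ hP.prime.ne_zero
        rw [← h2, ← Finset.mul_prod_erase _ (fun q => q) hπ, pw_zero]
        ring
      obtain ⟨k1, k2⟩ := cs_gen hP (hϖ' π hπ) (U := (S.filter (fun q => x q = 1)).erase π)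
        (fun q hq => hS q (mem_filter.1 (mem_of_mem_erase hq)).1) (notMem_erase _ _) e a
      obtain ⟨k3, k4⟩ := cs_gen hP (hϖ' π hπ) (U := S.erase π)
        (fun q hq => hS q (mem_of_mem_erase hq)) (notMem_erase _ _) em 0
      rw [← e1] at k1 k2
      rw [← e2] at k3 k4
      have h4 : cs π (δ1 * m1) = 0 :=
        cs_sq (fun hd => (hP.prime.dvd_or_dvd hd).elim k1 k3) h3
      rw [cs_mul hP k1 k3, k2, k4, zero_mul, zero_add] at h4
      have h5 : ∑ q ∈ (S.filter (fun q => x q = 1)).erase π, cs π q =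
          ∑ q ∈ S.erase π, cs π q * x q := by
        rw [← filter_erase, sum_filter_x]
      have h6 : ∑ q ∈ S, cs π q * (x π + x q) =
          ∑ q ∈ S.erase π, cs π q * x q + ∑ q ∈ S.erase π, cs π q := by
        rw [← Finset.add_sum_erase _ _ hπ, dbl (x π), mul_zero, zero_add, ← sum_add_distrib]
        refine sum_congr rfl fun q _ => ?_
        rw [hx1]
        ring
      rw [h6, ← h5, hx1]
      linear_combination h4
  refine ⟨x, e, a, hd, key, ?_⟩
  -- the sum of the equations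
  have h1 : ∑ π ∈ S, (Lp S cA x π + tt π * dt S tt x + (e + em * x π) * tt π + a * c' π) = 0 :=
    sum_eq_zero key
  have h2 : ∑ π ∈ S, (Lp S cA x π + tt π * dt S tt x + (e + em * x π) * tt π + a * c' π) =
      dt S tt x + em * dt S tt x + a := by
    have e1 : ∀ π ∈ S, Lp S cA x π + tt π * dt S tt x + (e + em * x π) * tt π + a * c' π =
        Lp S cA x π + (tt π * (dt S tt x + e) + (em * (tt π * x π) + a * c' π)) :=
      fun π _ => by ring
    rw [sum_congr rfl e1, sum_add_distrib, sum_add_distrib, sum_add_distrib, ← sum_mul, h0,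
      ← mul_sum, ← mul_sum, hc1,
      sum_Lp S cA tt (fun p hp q hq hpq => by
        show cs q p + cs p q = _
        rw [hrec q p (hS q hq) (hS p hp) (Ne.symm hpq), mul_comm]) h0 x]
    have e3 : ∑ i ∈ S, tt i * x i = dt S tt x := rfl
    rw [e3]
    ring
  rw [h1] at h2
  have h3 : ∀ u v w : ZMod 2, 0 = u + v * u + w → w = (1 + v) * u := by decide
  exact h3 _ _ _ h2

/-! ### The strict condition -/

/-- the unit classes modulo `8` -/
def Od (u : ZMod 8) : Prop := u = 1 ∨ u = 3 ∨ u = 5 ∨ u = 7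

instance : DecidablePred Od := fun u => by unfold Od; infer_instance

/-- the character modulo `4` -/
def q4 (u : ZMod 8) : ZMod 2 := if u = 1 ∨ u = 5 then 0 else 1

/-- the even character modulo `8` -/
def q8 (u : ZMod 8) : ZMod 2 := if u = 1 ∨ u = 7 then 0 else 1

/-- additive characters -/
def Ad (χ : ZMod 8 → ZMod 2) : Prop := χ 1 = 0 ∧ ∀ u v, Od u → Od v → χ (u * v) = χ u + χ v

lemma ad_q4 : Ad q4 := ⟨by decide, by decide⟩
lemma ad_q8 : Ad q8 := ⟨by decide, by decide⟩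

lemma od_mul : ∀ u v : ZMod 8, Od u → Od v → Od (u * v) := by decide

lemma q_val {χ : ZMod 8 → ZMod 2} (hχ : Ad χ) (r : RR →+* ZMod 8) {U : Finset RR}
    (hU : ∀ q ∈ U, Od (r q)) {ϖ' : RR} (h' : Od (r ϖ')) (e a : ZMod 2) :
    Od (r (sg e * (pw a ϖ' * ∏ q ∈ U, q))) ∧
      χ (r (sg e * (pw a ϖ' * ∏ q ∈ U, q))) = e * χ 7 + (a * χ (r ϖ') + ∑ q ∈ U, χ (r q)) := by
  have h1 : Od (r (∏ q ∈ U, q)) ∧ χ (r (∏ q ∈ U, q)) = ∑ q ∈ U, χ (r q) := by
    induction U using Finset.induction_on with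
    | empty =>
      rw [prod_empty, sum_empty, map_one]
      exact ⟨Or.inl rfl, hχ.1⟩
    | insert b s hb ih =>
      obtain ⟨h1, h2⟩ := ih fun q hq => hU q (mem_insert_of_mem hq)
      have h3 := hU b (mem_insert_self b s)
      rw [prod_insert hb, sum_insert hb, map_mul, hχ.2 _ _ h3 h1, h2]
      exact ⟨od_mul _ _ h3 h1, rfl⟩
  have h2 : Od (r (pw a ϖ')) ∧ χ (r (pw a ϖ')) = a * χ (r ϖ') := by
    rcases zm a with rfl | rfl
    · rw [pw_zero, map_one, hχ.1, zero_mul]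
      exact ⟨Or.inl rfl, rfl⟩
    · rw [pw_one, one_mul]
      exact ⟨h', rfl⟩
  have h3 : Od (r (sg e)) ∧ χ (r (sg e)) = e * χ 7 := by
    rcases zm e with rfl | rfl
    · rw [sg_zero, map_one, hχ.1, zero_mul]
      exact ⟨Or.inl rfl, rfl⟩
    · rw [sg_one, map_neg, map_one, one_mul]
      exact ⟨Or.inr (Or.inr (Or.inr rfl)), rfl⟩
  rw [map_mul, map_mul]
  have h4 := od_mul _ _ h2.1 h1.1
  rw [hχ.2 _ _ h3.1 h4, hχ.2 _ _ h2.1 h1.1, h1.2, h2.2, h3.2]
  exact ⟨od_mul _ _ h3.1 h4, rfl⟩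

lemma r8_eq (x : RR) : r8 x = ((cX x + 6 * cY x : ℤ) : ZMod 8) := by
  have h : r8 x = (cX x : ZMod 8) + (cY x : ZMod 8) * 6 := rfl
  rw [h]
  push_cast
  ring

lemma r8_a : r8 aR = 6 := ev_aR _ _

lemma r8_cja : r8 (cj aR) = 3 := by
  rw [QC.cj_aR, map_sub, map_one, r8_a]
  decide

/-- the residue class modulo `8` of a primary element -/
lemma r8_prm {x : RR} (h : QK.prm x) : r8 x = 1 ∨ r8 x = 5 := by
  have h1 := h.r4
  rw [r4_eq] at h1
  rw [r8_eq]
  have h2 : (1 : ZMod 4) = ((1 : ℤ) : ZMod 4) := by norm_num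
  rw [h2, ZMod.intCast_eq_intCast_iff_dvd_sub] at h1
  obtain ⟨k, hk⟩ := h1
  push_cast at hk
  rcases Int.even_or_odd' (k + cY x) with ⟨l, h3 | h3⟩
  · left
    have h4 : (1 : ZMod 8) = ((1 : ℤ) : ZMod 8) := by norm_num
    rw [h4, ZMod.intCast_eq_intCast_iff_dvd_sub]
    push_cast
    exact ⟨l - cY x, by linear_combination hk + 4 * h3⟩
  · right
    have h4 : (5 : ZMod 8) = ((5 : ℤ) : ZMod 8) := by norm_num
    rw [h4, ZMod.intCast_eq_intCast_iff_dvd_sub]
    push_cast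
    exact ⟨l - cY x + 1, by linear_combination hk + 4 * h3⟩

/-- the norm modulo `8` -/
lemma r8_norm (x : RR) : ((nrm x : ℕ) : ZMod 8) = r8 x * r8 (cj x) := by
  have h1 : ((nrm x : ℕ) : RR) = x * cj x := by
    have h2 : ((nrm x : ℤ) : RR) = ((nR x : ℤ) : RR) := by rw [nrm_cast]
    have h3 : ((nrm x : ℕ) : RR) = ((nrm x : ℤ) : RR) := by push_cast; rfl
    rw [h3, h2]
    exact (mul_cj x).symm
  rw [← map_mul, ← h1, map_natCast]

lemma tt_r8 {x : RR} (h : QK.prm x) : (r8 (cj x) = 1 ∨ r8 (cj x) = 5 → tt x = 0) ∧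
    (r8 (cj x) = 3 ∨ r8 (cj x) = 7 → tt x = 1) := by
  have h1 := r8_norm x
  have h3 : ((nrm x % 8 : ℕ) : ZMod 8) = r8 x * r8 (cj x) := by
    rw [ZMod.natCast_mod]
    exact h1
  have h4 : nrm x % 8 < 8 := Nat.mod_lt _ (by norm_num)
  have h5 : nrm x % 4 = (nrm x % 8) % 4 := by omega
  have h2 := r8_prm h
  unfold tt
  rw [h5]
  revert h3 h4 h2
  generalize nrm x % 8 = n
  generalize r8 x = u
  generalize r8 (cj x) = v
  intro h3 h4 h2
  interval_cases n <;> revert u v <;> decide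

lemma od_cj {x : RR} (h : QK.prm x) : Od (r8 (cj x)) := by
  rcases nrm_odd h with h1 | h1
  all_goals
    have h2 := r8_norm x
    have h3 : ((nrm x % 8 : ℕ) : ZMod 8) = r8 x * r8 (cj x) := by
      rw [ZMod.natCast_mod]
      exact h2
    have h4 : nrm x % 8 < 8 := Nat.mod_lt _ (by norm_num)
    have h5 : nrm x % 4 = (nrm x % 8) % 4 := by omega
    have h6 := r8_prm h
    rw [h5] at h1
    revert h1 h3 h4 h6
    generalize nrm x % 8 = n
    generalize r8 x = u
    generalize r8 (cj x) = v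
    intro h1 h3 h4 h6
    interval_cases n <;> revert u v <;> revert h1 <;> decide

/-- the values of the characters at the primary elements, at the place `w` -/
lemma q_r8 {x : RR} (h : QK.prm x) : Od (r8 x) ∧ q4 (r8 x) = 0 ∧ q8 (r8 x) = gg x := by
  unfold gg
  rcases r8_prm h with h1 | h1 <;> rw [h1] <;> decide

/-- the values of the characters at the primary elements, at the conjugate place -/
lemma q_cj {x : RR} (h : QK.prm x) :
    Od (r8 (cj x)) ∧ q4 (r8 (cj x)) = tt x ∧ q8 (r8 (cj x)) = hh x := by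
  refine ⟨od_cj h, ?_, ?_⟩
  · obtain ⟨h1, h2⟩ := tt_r8 h
    rcases od_cj h with h3 | h3 | h3 | h3
    · rw [h1 (Or.inl h3), h3]; decide
    · rw [h2 (Or.inl h3), h3]; decide
    · rw [h1 (Or.inr h3), h3]; decide
    · rw [h2 (Or.inr h3), h3]; decide
  · rfl

/-! ### The four cases -/

/-- a constant vector gives `1` or `m` -/
lemma fin_cst {S : Finset RR} {x : RR → ZMod 2} (hc : Cst S x) {e a em : ZMod 2} {ϖ' δ : RR}
    (hd : δ = sg e * (pw a ϖ' * ∏ q ∈ S.filter (fun q => x q = 1), q))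
    (h0 : (∀ q ∈ S, x q = 0) → e = 0 ∧ a = 0) (h1 : (∀ q ∈ S, x q = 1) → e = em ∧ a = 0) :
    δ = 1 ∨ δ = sg em * ∏ q ∈ S, q := by
  obtain ⟨c, hc⟩ := hc
  rcases zm c with rfl | rfl
  · left
    obtain ⟨h2, h3⟩ := h0 hc
    have h4 : S.filter (fun q => x q = 1) = ∅ := by
      rw [filter_eq_empty_iff]
      intro q hq
      rw [hc q hq]
      decide
    rw [hd, h4, h2, h3, sg_zero, pw_zero, prod_empty, one_mul, one_mul]
  · right
    obtain ⟨h2, h3⟩ := h1 hc
    rw [hd, filter_true_of_mem hc, h2, h3, pw_zero, one_mul]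

lemma dt_zero {S : Finset RR} (f : RR → ZMod 2) {x : RR → ZMod 2} (h : ∀ q ∈ S, x q = 0) :
    dt S f x = 0 := sum_eq_zero fun q hq => by rw [h q hq, mul_zero]

lemma dt_one {S : Finset RR} (f : RR → ZMod 2) {x : RR → ZMod 2} (h : ∀ q ∈ S, x q = 1) :
    dt S f x = ∑ q ∈ S, f q := sum_congr rfl fun q hq => by rw [h q hq, mul_one]

/-- the strict condition in terms of the characters -/
lemma strict {r : RR →+* ZMod 8} {ϖ : RR} (hr : r ϖ ^ 3 = 0) {δ m : RR}
    (h : ϖ ^ 3 ∣ δ - 1 ∨ ϖ ^ 3 ∣ δ * m - 1) : r δ = 1 ∨ r δ * r m = 1 := by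
  rcases h with ⟨c, hc⟩ | ⟨c, hc⟩
  · left
    have h1 := congrArg r hc
    rw [map_sub, map_one, map_mul, map_pow, hr, zero_mul] at h1
    exact sub_eq_zero.1 h1
  · right
    have h1 := congrArg r hc
    rw [map_sub, map_one, map_mul, map_mul, map_pow, hr, zero_mul] at h1
    exact sub_eq_zero.1 h1

lemma strict_pos : ∀ u : ZMod 8, Od u → (u = 1 ∨ u * 5 = 1) → q4 u = 0 := by decide

lemma strict_neg : ∀ u : ZMod 8, Od u → (u = 1 ∨ u * -5 = 1) → q4 u = q8 u := by decide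

section

variable {S : Finset RR} {D : RR} (hrec : RecP) (hsup : S_SUP) (hS : ∀ π ∈ S, Pq π)
  (hD : ∏ π ∈ S, π = D) (h0 : ∑ π ∈ S, tt π = 0) (h5 : C5 S) (hm : (8 : RR) ∣ D - 5)

include hS

lemma not_aR' : ∀ π ∈ S, ¬ π ∣ aR := fun π hπ h1 =>
  (hS π hπ).od (by rw [two_eq]; exact h1.mul_right _)

lemma not_cja' : ∀ π ∈ S, ¬ π ∣ cj aR := fun π hπ h1 =>
  (hS π hπ).od (by rw [two_eq]; exact h1.mul_left _)

include hsup

lemma cs_a : ∀ π ∈ S, cs π aR = tt π + gg π := by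
  intro π hπ
  obtain ⟨h1, h2, -⟩ := hsup π (hS π hπ)
  have h3 : aR = -1 * -aR := by ring
  have h4 : ¬ π ∣ (-1 : RR) := by
    rw [dvd_neg]
    exact fun h => (hS π hπ).prime.not_isUnit (isUnit_of_dvd_one h)
  rw [h3, cs_mul (hS π hπ) h4 (by rw [dvd_neg]; exact not_aR' hS π hπ), h1, h2]

lemma cs_ca : ∀ π ∈ S, cs π (cj aR) = tt π + hh π := by
  intro π hπ
  obtain ⟨h1, -, h2⟩ := hsup π (hS π hπ)
  have h3 : cj aR = -1 * -cj aR := by ring
  have h4 : ¬ π ∣ (-1 : RR) := by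
    rw [dvd_neg]
    exact fun h => (hS π hπ).prime.not_isUnit (isUnit_of_dvd_one h)
  rw [h3, cs_mul (hS π hπ) h4 (by rw [dvd_neg]; exact not_cja' hS π hπ), h1, h2]

end

lemma r8_5 {D : RR} (hm : (8 : RR) ∣ D - 5) (r : RR →+* ZMod 8) : r D = 5 := by
  obtain ⟨c, hc⟩ := hm
  have h1 := congrArg r hc
  rw [map_sub, map_ofNat, map_mul, map_ofNat] at h1
  have h2 : (8 : ZMod 8) = 0 := by decide
  rw [h2, zero_mul] at h1
  exact sub_eq_zero.1 h1

/-- **the algebraic conditions for all the weights** -/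
theorem algR (hrec : RecP) (hsup : S_SUP) (hcls : S_CLS) (htr : S_TR) {D : RR} (hD : Good5 D) :
    AlgR D aR (cj aR) ∧ AlgR D (cj aR) aR ∧ AlgR (-D) aR (cj aR) ∧ AlgR (-D) (cj aR) aR := by
  obtain ⟨hC, hG⟩ := hD
  obtain ⟨hS, hprod, h0, h5⟩ := hcls.1 D hC
  set S := QK.PD D with hSdef
  have hm := hC.2.1
  have hm1 : ∀ π : RR, Pq π → cs π (-1) = tt π := fun π h => (hsup π h).1
  have hrc : ∀ p ∈ S, ∀ q ∈ S, p ≠ q → cA p q + cA q p = tt p * tt q := by
    intro p hp q hq hpq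
    show cs q p + cs p q = _
    rw [hrec q p (hS q hq) (hS p hp) (Ne.symm hpq), mul_comm]
  have hH : Hyp S cA tt gg hh := ⟨hrc, h0, h5.1, h5.2⟩
  obtain ⟨htA, htB⟩ := htr RR S cA tt gg hh hH
  have hAt := htA hG.1
  have hBt := htB hG.2
  have hca := cs_a hsup hS
  have hcca := cs_ca hsup hS
  have sa : ∑ π ∈ S, (tt π + gg π) = 1 := by rw [sum_add_distrib, h0, h5.1, zero_add]
  have sc : ∑ π ∈ S, (tt π + hh π) = 1 := by rw [sum_add_distrib, h0, h5.2, zero_add]
  have hr3 : r8 aR ^ 3 = 0 := by rw [r8_a]; decide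
  have hr3' : (r8.comp cj) (cj aR) ^ 3 = 0 := by
    show r8 (cj (cj aR)) ^ 3 = 0
    rw [cj_cj, r8_a]
    decide
  have eP : D = sg 0 * ∏ π ∈ S, π := by rw [sg_zero, one_mul, hprod]
  have eN : -D = sg 1 * ∏ π ∈ S, π := by rw [sg_one, hprod]; ring
  have q37 : q4 7 = 1 ∧ q8 7 = 0 ∧ q4 3 = 1 ∧ q8 3 = 1 ∧ Od 3 := by decide
  obtain ⟨v1, v2, v3, v4, v5⟩ := q37
  -- the values at the place `w`
  have va : ∀ (x : RR → ZMod 2) (e a : ZMod 2) (δ : RR),
      δ = sg e * (pw a (cj aR) * ∏ q ∈ S.filter (fun q => x q = 1), q) →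
      Od (r8 δ) ∧ q4 (r8 δ) = e + a ∧ q8 (r8 δ) = a + dt S gg x := by
    intro x e a δ hd
    have hU : ∀ q ∈ S.filter (fun q => x q = 1), Od (r8 q) := fun q hq =>
      (q_r8 (hS q (mem_filter.1 hq).1).prm).1
    obtain ⟨k1, k2⟩ := q_val ad_q4 r8 hU (by rw [r8_cja]; exact v5) e a
    obtain ⟨-, k3⟩ := q_val ad_q8 r8 hU (by rw [r8_cja]; exact v5) e a
    rw [← hd] at k1 k2 k3
    refine ⟨k1, ?_, ?_⟩
    · rw [k2, v1, r8_cja, v3, sum_filter_x,
        sum_eq_zero fun q hq => by rw [(q_r8 (hS q hq).prm).2.1, zero_mul]]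
      ring
    · rw [k3, v2, r8_cja, v4, sum_filter_x,
        sum_congr rfl fun q hq => by rw [(q_r8 (hS q hq).prm).2.2]]
      show e * 0 + (a * 1 + dt S gg x) = _
      ring
  -- the values at the conjugate place
  have vc : ∀ (x : RR → ZMod 2) (e a : ZMod 2) (δ : RR),
      δ = sg e * (pw a aR * ∏ q ∈ S.filter (fun q => x q = 1), q) →
      Od ((r8.comp cj) δ) ∧ q4 ((r8.comp cj) δ) = e + a + dt S tt x ∧
        q8 ((r8.comp cj) δ) = a + dt S hh x := by
    intro x e a δ hd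
    have hU : ∀ q ∈ S.filter (fun q => x q = 1), Od ((r8.comp cj) q) := fun q hq =>
      (q_cj (hS q (mem_filter.1 hq).1).prm).1
    have ha : (r8.comp cj) aR = 3 := r8_cja
    obtain ⟨k1, k2⟩ := q_val ad_q4 (r8.comp cj) hU (by rw [ha]; exact v5) e a
    obtain ⟨-, k3⟩ := q_val ad_q8 (r8.comp cj) hU (by rw [ha]; exact v5) e a
    rw [← hd] at k1 k2 k3
    refine ⟨k1, ?_, ?_⟩
    · rw [k2, v1, ha, v3, sum_filter_x]
      have e1 : ∑ q ∈ S, q4 ((r8.comp cj) q) * x q = dt S tt x :=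
        sum_congr rfl fun q hq => by
          rw [show q4 ((r8.comp cj) q) = tt q from (q_cj (hS q hq).prm).2.1]
      rw [e1]
      ring
    · rw [k3, v2, ha, v4, sum_filter_x]
      have e1 : ∑ q ∈ S, q8 ((r8.comp cj) q) * x q = dt S hh x :=
        sum_congr rfl fun q hq => by
          rw [show q8 ((r8.comp cj) q) = hh q from (q_cj (hS q hq).prm).2.2]
      rw [e1]
      ring
  refine ⟨?_, ?_, ?_, ?_⟩
  · -- `m = D`, the place `w`
    intro δ hδ hn hs hst hloc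
    have hst' := strict (r := r8) hr3 hst
    rw [eP] at hs hloc
    obtain ⟨x, e, a, hd, heq, ha⟩ := master hrec hm1 hS h0 0 prime_cjaR (not_cja' hS) hcca sc hδ
      hs hloc
    obtain ⟨w1, w2, w3⟩ := va x e a δ hd
    rw [r8_5 hm] at hst'
    have w4 := strict_pos _ w1 hst'
    rw [w2] at w4
    rw [add_zero, one_mul] at ha
    have he : e = dt S tt x := by
      have : ∀ u v w : ZMod 2, u + v = 0 → v = w → u = w := by decide
      exact this _ _ _ w4 ha
    have hc : Cst S x := by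
      refine hBt x fun p hp => ?_
      have h1 := heq p hp
      rw [ha, he] at h1
      have h2 : ∀ u t d h xx : ZMod 2, u + t * d + (d + 0 * xx) * t + d * (t + h) = 0 →
          u + t * d + h * d = 0 := by decide
      exact h2 _ _ _ _ _ h1
    have := fin_cst (em := 0) hc hd
      (fun h => ⟨by rw [he, dt_zero tt h], by rw [ha, dt_zero tt h]⟩)
      (fun h => ⟨by rw [he, dt_one tt h, h0], by rw [ha, dt_one tt h, h0]⟩)
    rwa [← eP] at this
  · -- `m = D`, the conjugate place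
    intro δ hδ hn hs hst hloc
    have hst' := strict (r := r8.comp cj) hr3' hst
    rw [eP] at hs hloc
    obtain ⟨x, e, a, hd, heq, ha⟩ := master hrec hm1 hS h0 0 prime_aR (not_aR' hS) hca sa hδ
      hs hloc
    obtain ⟨w1, w2, w3⟩ := vc x e a δ hd
    rw [r8_5 hm] at hst'
    have w4 := strict_pos _ w1 hst'
    rw [w2] at w4
    rw [add_zero, one_mul] at ha
    have he : e = 0 := by
      have : ∀ u v w : ZMod 2, u + v + w = 0 → v = w → u = 0 := by decide
      exact this _ _ _ w4 ha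
    have hc : Cst S x := by
      refine hG.1 x fun p hp => ?_
      have h1 := heq p hp
      rw [ha, he] at h1
      have h2 : ∀ u t d g xx : ZMod 2, u + t * d + (0 + 0 * xx) * t + d * (t + g) = 0 →
          u + g * d = 0 := by decide
      exact h2 _ _ _ _ _ h1
    have := fin_cst (em := 0) hc hd
      (fun h => ⟨he, by rw [ha, dt_zero tt h]⟩)
      (fun h => ⟨he, by rw [ha, dt_one tt h, h0]⟩)
    rwa [← eP] at this
  · -- `m = -D`, the place `w`
    intro δ hδ hn hs hst hloc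
    have hst' := strict (r := r8) hr3 hst
    rw [eN] at hs hloc
    obtain ⟨x, e, a, hd, heq, ha⟩ := master hrec hm1 hS h0 1 prime_cjaR (not_cja' hS) hcca sc hδ
      hs hloc
    obtain ⟨w1, w2, w3⟩ := va x e a δ hd
    rw [map_neg, r8_5 hm] at hst'
    have w4 := strict_neg _ w1 hst'
    rw [w2, w3] at w4
    rw [dbl, zero_mul] at ha
    have he : e = dt S gg x := by
      rw [ha, add_zero, zero_add] at w4
      exact w4
    have hc : Cst S x := by
      refine hAt x fun p hp => ?_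
      have h1 := heq p hp
      rw [ha, he] at h1
      have h2 : ∀ u t d g xx c : ZMod 2, u + t * d + (g + 1 * xx) * t + 0 * c = 0 →
          u + t * d + t * xx + t * g = 0 := by decide
      exact h2 _ _ _ _ _ _ h1
    have := fin_cst (em := 1) hc hd
      (fun h => ⟨by rw [he, dt_zero gg h], ha⟩)
      (fun h => ⟨by rw [he, dt_one gg h, h5.1], ha⟩)
    rwa [← eN] at this
  · -- `m = -D`, the conjugate place
    intro δ hδ hn hs hst hloc
    have hst' := strict (r := r8.comp cj) hr3' hst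
    rw [eN] at hs hloc
    obtain ⟨x, e, a, hd, heq, ha⟩ := master hrec hm1 hS h0 1 prime_aR (not_aR' hS) hca sa hδ
      hs hloc
    obtain ⟨w1, w2, w3⟩ := vc x e a δ hd
    rw [map_neg, r8_5 hm] at hst'
    have w4 := strict_neg _ w1 hst'
    rw [w2, w3] at w4
    rw [dbl, zero_mul] at ha
    have he : e = dt S tt x + dt S hh x := by
      rw [ha] at w4
      have : ∀ u v w : ZMod 2, u + 0 + v = 0 + w → u = v + w := by decide
      exact this _ _ _ w4
    have hc : Cst S x := by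
      refine hG.2 x fun p hp => ?_
      have h1 := heq p hp
      rw [ha, he] at h1
      have h2 : ∀ u t d g xx c : ZMod 2, u + t * d + ((d + g) + 1 * xx) * t + 0 * c = 0 →
          u + t * xx + t * g = 0 := by decide
      exact h2 _ _ _ _ _ _ h1
    have := fin_cst (em := 1) hc hd
      (fun h => ⟨by rw [he, dt_zero tt h, dt_zero hh h, add_zero], ha⟩)
      (fun h => ⟨by rw [he, dt_one tt h, dt_one hh h, h0, h5.2, zero_add], ha⟩)
    rwa [← eN] at this

end Pool.Agent.N848.AW
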