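import Pool.Agent.R384.Y.Two
import Pool.Agent.N848.W.MainG

/-!
# The vanishing of the Selmer groups of `κ ^ a κ' ^ b`, from an algebraic condition

The general form of `Pool/Agent/R384/Fin.lean` and `Pool/Agent/R384/Y/Two.lean`: `D` is any squarefree
element congruent to `± 5` modulo `8` and prime to `√-7`.
-/

set_option autoImplicit false
set_option linter.unusedSectionVars false

namespace Pool.Agent.N848.AW.G

open Pool.Agent.R384
open Pool.Agent.N848.W (loc_gen seven_eq)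
open Pool.Agent.Y715.Red Pool.Agent.Y715.Nr Pool.Agent.W237.RK
open Pool.Agent.Y715.Gi (QB KK GK i₀_mem gk_fix)
open Pool.Agent.Y715.Df (Cmp exists_cmp)
open Pool.Agent.Y715.Lc (norm_two_odd)

open scoped Classical

/-- The algebraic condition: the elements that satisfy the local conditions are `1` and `m`. -/
def AlgW (m ϖ ϖ' : OO) : Prop :=
  ∀ δ : OO, Squarefree δ → ¬ ϖ ∣ δ → (∀ π, Prime π → π ∣ δ → π ∣ ϖ' ∨ π ∣ m) →
    (ϖ ^ 3 ∣ δ - 1 ∨ ϖ ^ 3 ∣ δ * m - 1) →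
    (∀ π, Prime π → π ∣ m → (¬ π ∣ δ ∧ Sqm π δ) ∨
      ∃ δ1 m1, δ = π * δ1 ∧ m = π * m1 ∧ Sqm π (δ1 * m1)) → δ = 1 ∨ δ = m

lemma cube_dvd {w : PadicAlgCl 2} (hw : w ^ 2 = w - 2) {ϖ : OO} (hp : Prime ϖ)
    (h : ‖em hw ϖ‖ < 1) {x : OO} (hx : ‖em hw x‖ ≤ 1 / 8) : ϖ ^ 3 ∣ x := by
  have hn : ‖em hw ϖ‖ = 1 / 2 := by
    rw [norm_prime hw (by norm_num) hp h]
    norm_num
  have step : ∀ {y : OO}, ‖em hw y‖ < 1 → ∃ z, y = ϖ * z ∧ ‖em hw y‖ = 1 / 2 * ‖em hw z‖ := by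
    intro y hy
    obtain ⟨z, hz⟩ := (dvd_iff hw hp h y).2 hy
    exact ⟨z, hz, by rw [hz, map_mul, norm_mul, hn]⟩
  obtain ⟨x1, h1, e1⟩ := step (y := x) (by linarith)
  obtain ⟨x2, h2, e2⟩ := step (y := x1) (by linarith)
  obtain ⟨x3, h3, e3⟩ := step (y := x2) (by linarith)
  exact ⟨x3, by rw [h1, h2, h3]; ring⟩

variable {i₀ : QB} (hi : i₀ ^ 2 = i₀ - 2) {χ : GK i₀ →* ℤ_[2]ˣ} {m : OO} {r : QB}

theorem mainW (hms : Squarefree m) (h8 : (8 : OO) ∣ m - 5 ∨ (8 : OO) ∣ m + 5) (h7 : ¬ s7 ∣ m)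
    (cd : ChiD hi χ m r) {ϖ ϖ' : OO} (hϖ : (ϖ = om ∧ ϖ' = 1 - om) ∨ (ϖ = 1 - om ∧ ϖ' = om))
    (hAlg : AlgW m ϖ ϖ')
    {c : GK i₀ → ℚ_[2]} (hc : Coc χ c)
    (hodd : ∀ (p : ℕ) [Fact p.Prime] (ι : QB →ₐ[ℚ] PadicAlgCl p), p ≠ 2 → CobOn χ (II ι) c)
    (hstr : ∀ ι : QB →ₐ[ℚ] PadicAlgCl 2, ‖ι (em hi ϖ)‖ < 1 → CobOn χ (DD ι) c) :
    ∃ y : ℚ_[2], ∀ σ, c σ = (vl χ σ - 1) * y := by
  classical
  by_contra hn
  have hϖp : Prime ϖ := by
    rcases hϖ with ⟨rfl, -⟩ | ⟨rfl, -⟩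
    · exact prime_om
    · exact prime_om'
  have hϖ2 : ϖ * ϖ' = 2 := by
    rcases hϖ with ⟨rfl, rfl⟩ | ⟨rfl, rfl⟩
    · exact om_mul
    · rw [mul_comm]; exact om_mul
  -- the prime divisors of `m` are odd
  have hm2 : ∀ {z : OO}, Prime z → z ∣ m → ¬ z ∣ 2 := by
    intro z hz hzm h2
    apply hz.not_isUnit
    rcases h8 with ⟨J, hJ⟩ | ⟨J, hJ⟩
    · have e : (1 : OO) = m - 2 * (4 * J + 2) := by linear_combination -hJ
      exact isUnit_of_dvd_one (by rw [e]; exact dvd_sub hzm (h2.mul_right _))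
    · have e : (1 : OO) = m - 2 * (4 * J - 3) := by linear_combination -hJ
      exact isUnit_of_dvd_one (by rw [e]; exact dvd_sub hzm (h2.mul_right _))
  -- the strict place
  obtain ⟨p, hpf, ι, hι⟩ := exists_emb hi hϖp
  have hp2 : p = 2 := by
    rw [ι_em] at hι
    exact (two_of_dvd hϖp (iw hi ι) hι).2 ⟨_, hϖ2.symm⟩
  subst hp2
  have hι' : ‖em (iw hi ι) ϖ‖ < 1 := by rwa [ι_em] at hι
  obtain ⟨σ₀, -, hσ₀⟩ := exists_dec hi cd h8 ι
  -- normalization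
  obtain ⟨a, y, ha, hint, hmin⟩ := normalize hc (cd.big hi hσ₀) hn
  set c' : GK i₀ → ℚ_[2] := fun σ => a * c σ + (vl χ σ - 1) * y with hc'
  have hcc : Coc χ c' := hc.twist cd.cont a y
  have hodd' : ∀ (p : ℕ) [Fact p.Prime] (ι : QB →ₐ[ℚ] PadicAlgCl p), p ≠ 2 →
      CobOn χ (II ι) c' := fun p _ ι hp => (hodd p ι hp).twist a y
  have hstr' : CobOn χ (DD ι) c' := (hstr ι hι).twist a y
  -- Kummer theory
  obtain ⟨δ, hδ, hkum⟩ := kum hi (md c') (md_cont hcc) (md_mul hcc hint)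
  obtain ⟨s, hs⟩ : ∃ s : QB, s ^ 2 = em hi δ := IsAlgClosed.exists_pow_nat_eq _ (by norm_num)
  have hk : ∀ σ : GK i₀, σ s = s ↔ md c' σ = 0 := hkum s hs
  obtain ⟨hst1, hst2⟩ := loc_strict hi cd hint h8 hϖp hι' hstr' hδ hs hk
  -- the prime divisors of `δ`
  have hsup : ∀ π, Prime π → π ∣ δ → π ∣ ϖ' ∨ π ∣ m := by
    intro π hπ hπδ
    by_cases hπ2 : π ∣ 2
    · rw [← hϖ2] at hπ2
      rcases hπ.dvd_or_dvd hπ2 with h | h
      · exfalso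
        exact hst1 (((hπ.dvd_prime_iff_associated hϖp).1 h).symm.dvd.trans hπδ)
      · exact Or.inl h
    · by_cases hπm : π ∣ m
      · exact Or.inr hπm
      · exfalso
        obtain ⟨l, hl, κ, hκ⟩ := exists_emb hi hπ
        rw [ι_em] at hκ
        have hl2 : l ≠ 2 := fun h => hπ2 ((two_of_dvd hπ (iw hi κ) hκ).1 h)
        have h1 := unram hi cd hl2 (hodd' l κ hl2) ((dvd_iff (iw hi κ) hπ hκ m).not.1 hπm)
        refine not_dvd_of_fix (iw hi κ) hπ hκ hδ (s := κ s) ?_ ?_ hπδ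
        · rw [← map_pow, hs, ι_em]
        · intro τ hin hτ
          exact fix_I (fun σ hσ => (hk σ).2 (h1 σ hσ)) τ hin hτ
  -- the prime divisors of `m`
  have hloc : ∀ π, Prime π → π ∣ m → (¬ π ∣ δ ∧ Sqm π δ) ∨
      ∃ δ1 m1, δ = π * δ1 ∧ m = π * m1 ∧ Sqm π (δ1 * m1) := by
    rintro π hπ ⟨m1, hm1⟩
    have hπ7 : ¬ π ∣ s7 := by
      intro h
      apply h7
      have h1 := (hπ.dvd_prime_iff_associated Pool.Agent.R384.prime_s7).1 h
      exact h1.symm.dvd.trans ⟨m1, hm1⟩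
    obtain ⟨l, hl, κ, hκ⟩ := exists_emb hi hπ
    rw [ι_em] at hκ
    have hπ2 := hm2 hπ ⟨m1, hm1⟩
    have hl2 : l ≠ 2 := fun h => hπ2 ((two_of_dvd hπ (iw hi κ) hκ).1 h)
    refine loc_gen hi cd hcc hint hπ hπ2 hπ7 hm1 ?_ hκ (hodd' l κ hl2) hδ hs hk
    rintro ⟨x, rfl⟩
    exact hπ.not_isUnit (hms π ⟨x, by rw [hm1]; ring⟩)
  have hst3 : ϖ ^ 3 ∣ δ - 1 ∨ ϖ ^ 3 ∣ δ * m - 1 := by
    rcases hst2 with h | h
    · left
      refine cube_dvd (iw hi ι) hϖp hι' ?_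
      rwa [map_sub, map_one]
    · right
      refine cube_dvd (iw hi ι) hϖp hι' ?_
      rwa [map_sub, map_one]
  rcases hAlg δ hδ hst1 hsup hst3 hloc with h | h
  · -- `δ = 1`
    rw [h, map_one] at hs
    obtain ⟨σ, hσ⟩ := hmin 0
    rw [mul_zero, sub_zero] at hσ
    apply hσ
    have h1 : σ s = s := by
      rcases sq_eq_one_iff.1 hs with h2 | h2
      · rw [h2, map_one]
      · rw [h2, map_neg, map_one]
    have h5 : ‖c' σ‖ < 1 := md_zero.1 ((hk σ).1 h1)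
    exact h5
  · -- `δ = m`
    rw [h] at hs
    have hsr : ∀ σ : GK i₀, σ s = s ↔ σ r = r := by
      intro σ
      have h1 : s ^ 2 = r ^ 2 := by rw [hs, cd.hr]
      rcases sq_eq_sq_iff_eq_or_eq_neg.1 h1 with h2 | h2
      · rw [h2]
      · rw [h2, map_neg, neg_inj]
    obtain ⟨σ, hσ⟩ := hmin (1 / 2)
    apply hσ
    have h2n : ‖(2 : ℚ_[2])‖ = 1 / 2 := Pool.Agent.R384.norm_two'
    have h3 : ‖(vl χ σ - 1) * (1 / 2)‖ = 2 * ‖vl χ σ - 1‖ := by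
      rw [norm_mul, norm_div, norm_one, h2n]
      ring
    by_cases h4 : md c' σ = 0
    · have h5 : ‖c' σ‖ < 1 := md_zero.1 h4
      have h6 := (cd.iff hi σ).2 ((hsr σ).1 ((hk σ).2 h4))
      have e : c' σ - (vl χ σ - 1) * (1 / 2) = c' σ + -((vl χ σ - 1) * (1 / 2)) := by ring
      have h7 : ‖c' σ - (vl χ σ - 1) * (1 / 2)‖ < 1 := by
        rw [e]
        refine add_lt' h5 ?_
        rw [norm_neg, h3]
        linarith
      exact h7
    · have h5 : ¬ ‖c' σ‖ < 1 := fun h => h4 (md_zero.2 h)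
      have h6 := (md_eq (hint σ)).1 h5
      have h7 : σ r = -r := by
        rcases rt_or hi cd.hr σ with h7 | h7
        · exact absurd ((hk σ).1 ((hsr σ).2 h7)) h4
        · exact h7
      have h8 := cd.big hi h7
      have h9 : ¬ ‖(vl χ σ - 1) * (1 / 2)‖ < 1 := by
        rw [h3, h8]
        norm_num
      have h10 := (md_eq (by rw [h3, h8]; norm_num)).1 h9
      have e : c' σ - (vl χ σ - 1) * (1 / 2) = (c' σ - 1) + -((vl χ σ - 1) * (1 / 2) - 1) := by ring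
      rw [e]
      exact add_lt' h6 (by rwa [norm_neg])

section

variable {κ κ' : GK i₀ →* ℤ_[2]ˣ} {D : OO} {I : QB}

/-- the character `κ ^ a κ' ^ b` of odd weight, with the parities -/
theorem chiAB' (kd : KD hi κ κ' D r I) {a b : ℤ} (hab : Odd (a + b)) :
    ∃ (m : OO) (s : QB), ((m = D ∧ Even a) ∨ (m = -D ∧ Odd a)) ∧
      ChiD hi (κ ^ a * κ' ^ b) m s := by
  have hap : ∀ σ, (κ ^ a * κ' ^ b : GK i₀ →* ℤ_[2]ˣ) σ = (κ σ) ^ a * (κ' σ) ^ b :=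
    fun σ => rfl
  have hinert : ∀ (p : ℕ) [Fact p.Prime] (ι : QB →ₐ[ℚ] PadicAlgCl p) (τ : Au p) (σ : GK i₀),
      p ≠ 2 → Cmp ι τ σ → Inert τ → (σ r = r → (κ ^ a * κ' ^ b : GK i₀ →* ℤ_[2]ˣ) σ = 1) ∧
        (σ r = -r → (κ ^ a * κ' ^ b : GK i₀ →* ℤ_[2]ˣ) σ = -1) := by
    intro p _ ι τ σ hp hc hin
    obtain ⟨h1, h2⟩ := kd.inAB hi a b hp hc hin
    exact ⟨h1, fun h => by rw [h2 h, hab.neg_one_zpow]⟩
  rcases Int.even_or_odd a with ha | ha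
  · -- `a` even
    have ha0 := ha
    obtain ⟨k, hk⟩ := ha
    have hk' : a = 2 * k := by omega
    obtain ⟨l, hl⟩ : ∃ l, b = 2 * l + 1 := by
      obtain ⟨l, hl⟩ := hab
      exact ⟨l - k, by omega⟩
    have hph : ∀ σ, ph ((κ ^ a * κ' ^ b : GK i₀ →* ℤ_[2]ˣ) σ) = ph (κ' σ) := by
      intro σ
      rw [hap, map_mul, map_zpow, map_zpow, hk', zpow_even (sq_four _), one_mul, hl, zpow_add,
        zpow_even (sq_four _), zpow_one, one_mul]
    refine ⟨D, r, Or.inl ⟨rfl, ha0⟩, kd.contAB hi a b, kd.hr, ?_, ?_, hinert⟩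
    · intro σ h
      rw [← ph_one, hph]
      exact kd.one' σ h
    · intro σ h
      rw [← ph_neg, hph]
      exact kd.neg' σ h
  · -- `a` odd
    have ha0 := ha
    obtain ⟨k, hk⟩ := ha
    obtain ⟨l, hl⟩ : ∃ l, b = 2 * l := by
      obtain ⟨l, hl⟩ := hab
      exact ⟨l - k, by omega⟩
    have hph : ∀ σ, ph ((κ ^ a * κ' ^ b : GK i₀ →* ℤ_[2]ˣ) σ) = ph (κ σ) := by
      intro σ
      rw [hap, map_mul, map_zpow, map_zpow, hl, zpow_even (sq_four _), mul_one, hk, zpow_add,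
        zpow_even (sq_four _), zpow_one, one_mul]
    refine ⟨-D, I * r, Or.inr ⟨rfl, ha0⟩, kd.contAB hi a b, ?_, ?_, ?_, ?_⟩
    · rw [mul_pow, kd.hI, kd.hr, map_neg]
      ring
    · intro σ h
      rw [← ph_one, hph]
      exact kd.one σ h
    · intro σ h
      rw [← ph_neg, hph]
      exact kd.neg σ h
    · intro p _ ι τ σ hp hc hin
      have hσI := kd.fixI hi hp hc hin
      have hI0 : I ≠ 0 := by
        rintro h0
        have := kd.hI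
        rw [h0] at this
        norm_num at this
      obtain ⟨a1, a2⟩ := hinert p ι τ σ hp hc hin
      constructor
      · intro h
        apply a1
        rw [map_mul, hσI] at h
        exact mul_left_cancel₀ hI0 h
      · intro h
        apply a2
        rw [map_mul, hσI, ← mul_neg] at h
        exact mul_left_cancel₀ hI0 h

/-- **The vanishing of the Selmer groups of `κ ^ a κ' ^ b`.** -/
theorem vanishAB (hDs : Squarefree D) (h8 : (8 : OO) ∣ D - 5) (h7 : ¬ s7 ∣ D)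
    (kd : KD hi κ κ' D r I) (a b : ℤ) {ϖ ϖ' : OO}
    (hϖ : (ϖ = om ∧ ϖ' = 1 - om) ∨ (ϖ = 1 - om ∧ ϖ' = om))
    (hAe : Even a → Odd b → AlgW D ϖ ϖ') (hAo : Odd a → Even b → AlgW (-D) ϖ ϖ')
    {c : GK i₀ → ℚ_[2]} (hc : Coc (κ ^ a * κ' ^ b) c)
    (hodd : ∀ (p : ℕ) [Fact p.Prime] (ι : QB →ₐ[ℚ] PadicAlgCl p), p ≠ 2 →
      CobOn (κ ^ a * κ' ^ b) (II ι) c)
    (hstr : ∀ ι : QB →ₐ[ℚ] PadicAlgCl 2, ‖ι (em hi ϖ)‖ < 1 →
      CobOn (κ ^ a * κ' ^ b) (DD ι) c) :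
    ∃ y : ℚ_[2], ∀ σ, c σ = (vl (κ ^ a * κ' ^ b) σ - 1) * y := by
  rcases Int.even_or_odd (a + b) with hab | hab
  · exact vanish_unr hi (kd.contAB hi a b) (kd.unrAB hi hab) hϖ hc hodd hstr
  · obtain ⟨m, s, hm, cd⟩ := chiAB' hi kd hab
    rcases hm with ⟨rfl, ha⟩ | ⟨rfl, ha⟩
    · exact mainW hi hDs (Or.inl h8) h7 cd hϖ
        (hAe ha ((Int.odd_add'.1 hab).2 ha)) hc hodd hstr
    · refine mainW hi ?_ (Or.inr ?_) ?_ cd hϖ (hAo ha ((Int.odd_add.1 hab).1 ha)) hc hodd hstr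
      · exact (Associated.neg_left (Associated.refl D)).squarefree_iff.2 hDs
      · have e : -D + 5 = -(D - 5) := by ring
        rw [e]
        exact dvd_neg.2 h8
      · rwa [dvd_neg]

end

end Pool.Agent.N848.AW.G
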