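import Pool.Agent.N848.AW.AlgR
import Pool.Agent.N848.AW.MainW
import Pool.Agent.N848.W.AlgT

/-!
# The algebraic conditions for all weights, in the first model of the ring of integers
-/

set_option autoImplicit false
set_option linter.unusedSectionVars false

open scoped Classical

namespace Pool.Agent.N848.AW

open Pool.Agent.R426 Pool.Agent.R426.QK
open Pool.Agent.Y698
open Pool.Agent.Y698.SG hiding PD
open H667R3 Pool.Agent.W192.HK Pool.Agent.TH936.CM Pool.Agent.TH936.PU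
open Pool.Agent.N848.W (OZ th th_om th_s7 e_dvd e_prime e_sqf)

lemma th_om' : th (1 - R384.om) = cj aR := by
  rw [map_sub, map_one, th_om, QC.cj_aR]

/-- the transfer -/
theorem algW_of {m ϖ ϖ' : OZ} (h : AlgR (th m) (th ϖ) (th ϖ')) : G.AlgW m ϖ ϖ' := by
  intro δ hδ hn hsup hst hloc
  have c1 : ∀ ρ : RR, Prime ρ → ρ ∣ th δ → ρ ∣ th ϖ' ∨ ρ ∣ th m := by
    intro ρ hρ hd
    obtain ⟨z, rfl⟩ := th.surjective ρ
    rw [e_dvd, e_dvd]
    exact hsup z ((e_prime th).1 hρ) ((e_dvd th).1 hd)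
  have c2 : th ϖ ^ 3 ∣ th δ - 1 ∨ th ϖ ^ 3 ∣ th δ * th m - 1 := by
    rcases hst with h1 | h1
    · left
      rw [← map_one th, ← map_sub, ← map_pow, e_dvd]
      exact h1
    · right
      rw [← map_mul, ← map_one th, ← map_sub, ← map_pow, e_dvd]
      exact h1
  have c3 : ∀ π : RR, Prime π → π ∣ th m → (¬ π ∣ th δ ∧ SqR π (th δ)) ∨
      ∃ δ1 m1, th δ = π * δ1 ∧ th m = π * m1 ∧ SqR π (δ1 * m1) := by
    intro π hπ hd
    obtain ⟨z, rfl⟩ := th.surjective π
    rcases hloc z ((e_prime th).1 hπ) ((e_dvd th).1 hd) with ⟨h1, y, hy⟩ | ⟨δ1, m1, h1, h2, y, hy⟩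
    · left
      refine ⟨fun h => h1 ((e_dvd th).1 h), th y, ?_⟩
      rw [← map_pow, ← map_sub, e_dvd]
      exact hy
    · right
      refine ⟨th δ1, th m1, ?_, ?_, th y, ?_⟩
      · rw [h1, map_mul]
      · rw [h2, map_mul]
      · rw [← map_mul, ← map_pow, ← map_sub, e_dvd]
        exact hy
  rcases h (th δ) ((e_sqf th δ).2 hδ) (fun h1 => hn ((e_dvd th).1 h1)) c1 c2 c3 with h | h
  · left
    exact th.injective (by rw [h, map_one])
  · right
    exact th.injective h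

/-- **the algebraic conditions for all the weights** -/
theorem algS (hrec : RecP) (hsup : S_SUP) (hcls : S_CLS) (htr : S_TR) {D : OZ}
    (hD : Good5 (th D)) {ϖ ϖ' : OZ}
    (hϖ : (ϖ = R384.om ∧ ϖ' = 1 - R384.om) ∨ (ϖ = 1 - R384.om ∧ ϖ' = R384.om)) :
    G.AlgW D ϖ ϖ' ∧ G.AlgW (-D) ϖ ϖ' := by
  obtain ⟨h1, h2, h3, h4⟩ := algR hrec hsup hcls htr hD
  rcases hϖ with ⟨rfl, rfl⟩ | ⟨rfl, rfl⟩
  · constructor
    · refine algW_of ?_
      rw [th_om, th_om']
      exact h1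
    · refine algW_of ?_
      rw [th_om, th_om', map_neg]
      exact h3
  · constructor
    · refine algW_of ?_
      rw [th_om, th_om']
      exact h2
    · refine algW_of ?_
      rw [th_om, th_om', map_neg]
      exact h4

/-- the class in the two models -/
lemma cls5_th {D : OZ} : Cls5 (th D) ↔ Squarefree D ∧ (8 : OZ) ∣ D - 5 ∧ ¬ R384.s7 ∣ D := by
  unfold Cls5
  rw [e_sqf th, ← th_s7, e_dvd]
  have e1 : (8 : RR) ∣ th D - 5 ↔ (8 : OZ) ∣ D - 5 := by
    rw [← e_dvd th (a := 8), map_sub, map_ofNat, map_ofNat]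
  rw [e1]

end Pool.Agent.N848.AW
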