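import Pool.Agent.N848.AW.Stm
import Pool.Agent.R426.QK.Asy

/-!
# Project AW: the final asymptotics for a general event

After `Pool/Agent/R426/QK/Asy.lean`. The event `G` and its probability `c` are arbitrary.
-/

set_option autoImplicit false
set_option linter.unusedVariables false

open scoped Classical
open Finset Filter

namespace Pool.Agent.N848.AW.AsyG

open Pool.Agent.R426.QK Pool.Agent.R426.QK.Asy
open Pool.Agent.Y698 (RR)
open Pool.Agent.Y703.CX (jj XX eL zz kk eL_tendsto logX_eq rpow_eL HH NN ev_eL one_le_exp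
  HH_ge HH_le HH_pos kk_ge kk_le X_pos one_add_log lin_le zz_ge zz_pos)
open Pool.Agent.N848.AW (gg hh C5 S5 Nd3 Nd5 G2 LAJE S_BAD5 S_LOW5 S_ASY5 S_LAJ S_BOX5 S_KEY5 S_DQ5)

lemma sum_sm_la (z : ℕ) (S : Finset RR) (f : RR → ZMod 2) :
    ∑ u ∈ sm z S, f u + ∑ π ∈ la z S, f π = ∑ π ∈ S, f π :=
  Finset.sum_filter_add_sum_filter_not S _ f

lemma nd5_iff (z : ℕ) (S : Finset RR) :
    Nd5 (sm z S) (la z S) ↔ C5 S ∧ Nd3 (sm z S) (la z S) := by
  unfold Nd5 C5
  rw [sum_sm_la, sum_sm_la, and_assoc]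

/-- the sets outside the regular part -/
theorem out_sub5 (X z H k V : ℕ) :
    S5 X \ ((Rg X z H k V).filter fun S => Nd5 (sm z S) (la z S)) ⊆
      (((((SS X).filter fun S => k < S.card) ∪
      ((SS X).filter fun S => S.card ≤ k ∧
        X < (∏ π ∈ sm z S, nrm π) * ∏ π ∈ la z S, XX H (bl H π))) ∪
      ((SS X).filter fun S => ¬ Set.InjOn (bl H) (la z S : Set RR))) ∪
      ((SS X).filter fun S => S.card ≤ k ∧ (lt3 z S).card < 4 * (sm z S).card + V)) ∪
      ((SS X).filter fun S => S.card ≤ k ∧ ¬ Nd3 (sm z S) (la z S)) := by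
  intro S hS
  rw [Finset.mem_sdiff, Finset.mem_filter] at hS
  obtain ⟨h1', h2⟩ := hS
  unfold S5 at h1'
  rw [Finset.mem_filter] at h1'
  obtain ⟨h1, h5⟩ := h1'
  simp only [mem_union, mem_filter]
  by_contra hc
  push Not at hc
  obtain ⟨⟨⟨⟨c1, c2⟩, c3⟩, c4⟩, c5⟩ := hc
  have d1 : S.card ≤ k := c1 h1
  have d2 := c2 h1 d1
  have d3 := c3 h1
  have d4 := c4 h1 d1
  have d5 := c5 h1 d1
  apply h2
  refine ⟨?_, (nd5_iff z S).2 ⟨h5, d5⟩⟩
  unfold Rg
  rw [mem_filter]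
  exact ⟨h1, d3, d1, d2, d4⟩

/-- the estimate of the sum over the boxes, for the event `G` of probability `c` -/
def KeyG (G : Finset RR → Prop) (c : ℝ) : Prop := ∃ C : ℝ, 1 ≤ C ∧
  ∀ ε : ℝ, 0 < ε → ∃ V : ℕ,
  ∀ (X z H k N : ℕ) (κ : ℝ), 1 ≤ X → 1 ≤ H → 1 ≤ z → 0 ≤ κ → C ≤ κ ^ 24 * z →
  (H : ℝ) * Real.log X < N →
  |(((Rg X z H k V).filter fun S => Nd5 (sm z S) (la z S) ∧ G S).card : ℝ) -
      c * (((Rg X z H k V).filter fun S => Nd5 (sm z S) (la z S)).card : ℝ)| ≤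
    ε * ((Rg X z H k V).card : ℝ) +
    (9 * N + 9 : ℝ) ^ k * (3 ^ (9 * k ^ 2 + 9) * κ) * (X * (1 + Real.log X))

/-- **The asymptotics** for the event `G` of probability `θ`. -/
theorem t_gen {G : Finset RR → Prop} {θ : ℝ} (h0 : 0 ≤ θ) (h1 : θ ≤ 1) (hK : KeyG G θ)
    (hC : S_CNT) (hB : S_BAD5) (hF : S_FEW) (hLo : S_LOW5) :
    Tendsto (fun X : ℕ => (((S5 X).filter G).card : ℝ) / ((S5 X).card : ℝ)) atTop (nhds θ) := by
  obtain ⟨C, hC1, hkey⟩ := hK
  obtain ⟨D, hD⟩ := hC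
  obtain ⟨c, X₀, hc, hlow⟩ := hLo
  rw [Metric.tendsto_nhds]
  intro ε hε
  have hε6 : (0 : ℝ) < ε / 6 := by linarith
  have hc4 : (0 : ℝ) < c / 4 := by linarith
  -- the regular sets are at most `E₀ X` in number
  have hD1 : 1 ≤ D := hD.one
  obtain ⟨V, hV⟩ := hkey (c * ε / (6 * D)) (by positivity)
  have s1 := sml_many hD
  have s2 := sml_cut hD
  have s3 := sml_coll hD
  have s4 := sml_eps (hF V)
  have s5 := sml_eps hB
  have s6 := sml_main hC1
  have s := sml_add (sml_add (sml_add (sml_add (sml_add s1 s2) s3) s4) s5) s6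
  have hδ : (0 : ℝ) < c * ε / 4 := by positivity
  filter_upwards [s (c * ε / 4) hδ, ev_eL 1, eventually_ge_atTop X₀] with X hX hl hX0
  rw [neg_zero, zero_mul, Real.exp_zero, mul_one] at hX
  have hl0 : 0 < eL X := by linarith
  have hlo := hlow X hX0
  have hXp := X_pos hl0
  have hXp' : (0 : ℝ) < X := by exact_mod_cast hXp
  have hSpos : (0 : ℝ) < ((S5 X).card : ℝ) := by
    refine lt_of_lt_of_le ?_ hlo
    positivity
  have hN : (HH X : ℝ) * Real.log X < NN X := by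
    unfold NN
    push_cast
    exact Nat.lt_floor_add_one _
  have hmain := hV X (zz X) (HH X) (kk X) (NN X) (kap C X) hXp (HH_pos hl0)
    (zz_pos hl) (kap_nonneg hC1 X) (kap_pow hC1 hl) hN
  set T := (Rg X (zz X) (HH X) (kk X) V).filter fun S => Nd5 (sm (zz X) S) (la (zz X) S) with hT
  have hTG : (Rg X (zz X) (HH X) (kk X) V).filter
      (fun S => Nd5 (sm (zz X) S) (la (zz X) S) ∧ G S) = T.filter G := by
    rw [hT, filter_filter]
  rw [hTG] at hmain
  have hTS : T ⊆ S5 X := by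
    intro S hS
    rw [hT, mem_filter] at hS
    unfold S5
    rw [mem_filter]
    refine ⟨?_, ((nd5_iff _ _).1 hS.2).1⟩
    have := hS.1
    unfold Rg at this
    exact (mem_filter.1 this).1
  have hRS : ((Rg X (zz X) (HH X) (kk X) V).card : ℝ) ≤ D * X := by
    have g1 : ((Rg X (zz X) (HH X) (kk X) V).card : ℝ) ≤ ((SS X).card : ℝ) := by
      exact_mod_cast card_le_card (filter_subset _ _)
    exact g1.trans (hD.all X hXp)
  have hcmp := cmp G T (S5 X) hTS θ h0 h1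
  have hout : ((S5 X \ T).card : ℝ) ≤
      ((((SS X).filter fun S => kk X < S.card).card : ℝ) +
      (((SS X).filter fun S => S.card ≤ kk X ∧
        X < (∏ π ∈ sm (zz X) S, nrm π) * ∏ π ∈ la (zz X) S, XX (HH X) (bl (HH X) π)).card : ℝ) +
      (((SS X).filter fun S => ¬ Set.InjOn (bl (HH X)) (la (zz X) S : Set RR)).card : ℝ) +
      (((SS X).filter fun S => S.card ≤ kk X ∧
        (lt3 (zz X) S).card < 4 * (sm (zz X) S).card + V).card : ℝ)) +
      (((SS X).filter fun S => S.card ≤ kk X ∧ ¬ Nd3 (sm (zz X) S) (la (zz X) S)).card : ℝ) := by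
    have g := card_le_card (out_sub5 X (zz X) (HH X) (kk X) V)
    rw [← hT] at g
    have g2 := (g.trans (card_union_le _ _)).trans (Nat.add_le_add_right ((card_union_le _ _).trans
      (Nat.add_le_add_right ((card_union_le _ _).trans
      (Nat.add_le_add_right (card_union_le _ _) _)) _)) _)
    exact_mod_cast g2
  have htot : |(((S5 X).filter G).card : ℝ) - θ * ((S5 X).card : ℝ)| ≤
      c * ε / 6 * X + c * ε / 4 * X := by
    have g1 : c * ε / (6 * D) * ((Rg X (zz X) (HH X) (kk X) V).card : ℝ) ≤ c * ε / 6 * X := by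
      calc c * ε / (6 * D) * ((Rg X (zz X) (HH X) (kk X) V).card : ℝ) ≤
            c * ε / (6 * D) * (D * X) := mul_le_mul_of_nonneg_left hRS (by positivity)
        _ = c * ε / 6 * X := by field_simp
    linarith
  rw [Real.dist_eq]
  have e3 : (((S5 X).filter G).card : ℝ) / ((S5 X).card : ℝ) - θ =
      ((((S5 X).filter G).card : ℝ) - θ * ((S5 X).card : ℝ)) /
        ((S5 X).card : ℝ) := by
    field_simp
  rw [e3, abs_div, abs_of_pos hSpos, div_lt_iff₀ hSpos]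
  refine lt_of_le_of_lt htot ?_
  have g2 : c * ε / 6 * X + c * ε / 4 * X ≤ (ε / 6 + ε / 4) * ((S5 X).card : ℝ) := by
    calc c * ε / 6 * X + c * ε / 4 * X = (ε / 6 + ε / 4) * (c * X) := by ring
      _ ≤ _ := mul_le_mul_of_nonneg_left hlo (by linarith)
  have g4 : 0 < ε * ((S5 X).card : ℝ) := by positivity
  linarith

/-- **AW-ASY.** -/
theorem t_ASY5 : S_ASY5 := by
  intro hR h1 h3 h4 h5 hK hC hB hF hLo hc2
  have p0 := hc2.2.1
  have p1 := hc2.2.2.1
  refine t_gen (by linarith) (by linarith) ?_ hC hB hF hLo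
  obtain ⟨C, hC1, hkey⟩ := hK hR h1 h3 h5
  refine ⟨C, hC1, fun ε hε => ?_⟩
  obtain ⟨V, hV⟩ := h4 ε hε
  exact ⟨V, fun X z H k N κ => hkey ε V hε hV X z H k N κ⟩

end Pool.Agent.N848.AW.AsyG
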