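import Pool.Agent.N848.AW.AsyG
import Pool.Agent.N848.AW.XT
import Pool.Agent.N615.AW.BOX
import Pool.Agent.N615.AW.KEY
import Pool.Agent.N849.AW.LA1
import Pool.Agent.N691.AW.LA2
import Pool.Agent.N279.AW.LA3
import Pool.Agent.N701.AW.LAS
import Pool.Agent.N402.AW.BAD
import Pool.Agent.N169.AW.Hall
import Pool.Agent.N763.AW.Cls
import Pool.Agent.N34.AW.LOW
import Pool.Agent.N27.AW_Sup
import Pool.Agent.R426.QK.Fin

/-!
# Project AW: the assembly of the density theorem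

The parts are by helpers 849 (LA1), 691 (LA2), 279 (LA3), 701 (LAS), 615 (BOX, KEY), 402 (BAD),
169 (HALL), 34 (LOW), 763 (CLS, NS), 27 (SUP) and 848 (XOR, TR, ASY; also proved by helpers 92 and
568, `N92/AW/XT.lean`, `N568/AW/Asy5.lean`), after project QK of helper426.
-/

set_option autoImplicit false

open scoped Classical

namespace Pool.Agent.N848.AW

open Pool.Agent.R426.QK

theorem t_SUP : S_SUP := Pool.Agent.N27.AW.t_SUP

theorem t_TR : S_TR := XT.t_TR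

theorem t_LAG : S_LAG :=
  Pool.Agent.N279.AW.LA3.t_LA3 MOM.t_MOM Pool.Agent.N849.AW.t_LA1 Pool.Agent.N691.AW.t_LA2

theorem t_LAJ : S_LAJ := t_LAS XT.t_XOR t_LAG

theorem t_BAD : S_BAD5 := Pool.Agent.N402.AW.t_BAD5 recP Pool.Agent.N169.AW.t_HALL5 t_MERT

theorem t_DQ5 : S_DQ5 :=
  AsyG.t_ASY5 recP t_BIL EQ.t_EQ t_LAJ Pool.Agent.N615.AW.BOX.t_BOX5 Pool.Agent.N615.AW.KEY.t_KEY5
    CNT.t_CNT t_BAD (FB.t_FEW t_HALL t_MERT) Pool.Agent.N34.AW.LOW.t_LOW5 MOM.t_C2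

theorem t_DEN5 : S_DEN5 := Pool.Agent.N763.AW.t_NS5 Pool.Agent.N763.AW.t_CLS t_DQ5

end Pool.Agent.N848.AW
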