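import Pool.Agent.N848.AW.MainW
import Pool.Agent.R384.X.Mq7

/-!
# The vanishing over multiquadratic fields, for all the weights
-/

set_option autoImplicit false
set_option linter.unusedSectionVars false

namespace Pool.Agent.N848.AW.G

open Pool.Agent.R384
open Pool.Agent.Y715.Red Pool.Agent.Y715.Nr Pool.Agent.W237.RK
open Pool.Agent.Y715.Gi (QB KK GK i₀_mem gk_fix)
open Pool.Agent.Y715.Df (Cmp exists_cmp)
open Pool.Agent.Y715.Lc (norm_two_odd)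

/-- the conditions on the twist -/
structure GdW (P : OO) : Prop where
  sqf : Squarefree P
  eight : (8 : OO) ∣ P - 5
  n7 : ¬ s7 ∣ P
  alg : ∀ ϖ ϖ' : OO, (ϖ = om ∧ ϖ' = 1 - om) ∨ (ϖ = 1 - om ∧ ϖ' = om) →
    AlgW P ϖ ϖ' ∧ AlgW (-P) ϖ ϖ'

variable {i₀ : QB} (hi : i₀ ^ 2 = i₀ - 2)

section mq

variable {n : ℕ} {s : Fin n → QB}
variable {κ κ' : GK i₀ →* ℤ_[2]ˣ} {D : OO} {r I : QB}

/-- **The vanishing theorem over multiquadratic fields.** -/
theorem vanMqW {E : Fin n → OO} (hE : ∀ i, s i ^ 2 = em hi (E i)) (kd : KD hi κ κ' D r I)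
    (hD : D ≠ 0) (hE0 : ∀ i, E i ≠ 0)
    (hgood : ∀ T : Finset (Fin n), ∃ P z : OO, GdW P ∧ z ≠ 0 ∧ D * ∏ i ∈ T, E i = P * z ^ 2)
    (a b : ℤ) (hab : Odd (a + b)) {ϖ ϖ' : OO}
    (hϖ : (ϖ = om ∧ ϖ' = 1 - om) ∨ (ϖ = 1 - om ∧ ϖ' = om)) :
    VanOn hi ϖ (κ ^ a * κ' ^ b) (fixs s Finset.univ) := by
  classical
  have hs0 : ∀ i, s i ≠ 0 := by
    intro i h
    have h1 := hE i
    rw [h, zero_pow two_ne_zero] at h1
    exact hE0 i (em_inj hi h1.symm)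
  have hs : ∀ (i) (σ : GK i₀), σ (s i) = s i ∨ σ (s i) = -s i := fun i σ => rt_or hi (hE i) σ
  refine van_all hi hs0 hs ϖ Finset.univ _ fun T _ => ?_
  obtain ⟨P, z, hg, hz, hprod⟩ := hgood T
  have kd1 := KD.twists hi hs0 hs hE kd hD hE0 T
  have hz0 : em hi z ≠ 0 := em_ne hi hz
  have kd2 := KD.resc hi kd1 (D' := P) (u := (em hi z)⁻¹) (inv_ne_zero hz0)
    (fun σ => by rw [map_inv₀, gk_em]) (by
      rw [mul_pow, kd1.hr, hprod, map_mul, map_pow]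
      field_simp)
  set S := ∏ i ∈ T, sgc (es (hs0 i) (hs i)) with hS
  have hSq : ∀ σ, S σ ^ 2 = 1 := by
    intro σ
    rw [hS, MonoidHom.finsetProd_apply, ← Finset.prod_pow]
    refine Finset.prod_eq_one fun i _ => ?_
    show (Units.map (Int.castRingHom ℤ_[2]).toMonoidHom (es (hs0 i) (hs i) σ)) ^ 2 = 1
    rw [← map_pow, Int.units_sq, map_one]
  have e : κ ^ a * κ' ^ b * S = (κ * S) ^ a * (κ' * S) ^ b := by
    refine MonoidHom.ext fun σ => ?_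
    have key : ∀ x y c : ℤ_[2]ˣ, c ^ 2 = 1 → x ^ a * y ^ b * c = (x * c) ^ a * (y * c) ^ b :=
      fun x y c hc => by
        have h1 : c ^ (a + b) = c := by
          obtain ⟨k, hk⟩ := hab
          rw [hk, zpow_add, zpow_mul, zpow_one]
          have h2 : c ^ (2 : ℤ) = 1 := by exact_mod_cast hc
          rw [h2, one_zpow, one_mul]
        rw [mul_zpow, mul_zpow, mul_mul_mul_comm, ← zpow_add, h1]
    exact key _ _ _ (hSq σ)
  intro c hc hodd hstr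
  rw [e] at hc hodd hstr ⊢
  obtain ⟨hA, hA'⟩ := hg.alg ϖ ϖ' hϖ
  obtain ⟨y, hy⟩ := vanishAB hi hg.sqf hg.eight hg.n7 kd2 a b hϖ (fun _ _ => hA)
    (fun _ _ => hA') (c := c) ⟨by
      have := hc.cont
      rwa [Subgroup.coe_top, continuousOn_univ] at this, fun σ τ => hc.mul σ trivial τ trivial⟩
    (fun p _ ι hp => by
      obtain ⟨y, hy⟩ := hodd p ι hp
      exact ⟨y, fun σ hσ => hy σ hσ trivial⟩)
    (fun ι hι => by
      obtain ⟨y, hy⟩ := hstr ι hι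
      exact ⟨y, fun σ hσ => hy σ hσ trivial⟩)
  exact ⟨y, fun σ _ => hy σ⟩

end mq

end Pool.Agent.N848.AW.G
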