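import Pool.Agent.R426.QK.Stm

/-!
# Project AW (helper848): all weights at once, natural density

`K = ℚ(√-7)`, `RR = ℤ[w]`, `w = aR`. For the squarefree `D ≡ 5` modulo `8` prime to `√-7`, the curve
`E_D : y² = x³ + 3 (1 - w) D x² + w⁴ D² x` and all integers `a`, `b` which are not both positive, the
classes of `H¹(K, ℚ_2(κ ^ a κ' ^ b))` which are unramified outside `2` and semistable at `2` are zero if
two matrices over `𝔽_2`, given by the quadratic residue symbols of the prime divisors of `D`, are not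
singular (`GA`, `GB` below). The proportion of these `D` tends to `c2 / 2`. This file has the statements
of the parts; the tools are those of project QK (`Pool/Agent/R426/QK/Stm.lean`).
-/

set_option autoImplicit false
set_option linter.unusedVariables false

open scoped Classical

namespace Pool.Agent.N848.AW

open Finset
open Pool.Agent.Y698 Pool.Agent.Y698.SG
open Pool.Agent.Y703.CX (jj XX eL zz kk)
open Pool.Agent.R426.QK
open Pool.Agent.R426

/-! ### The systems of linear equations, in general -/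

section sys

variable {V : Type}

/-- the values of `x` at the elements of `S` are equal -/
def Cst (S : Finset V) (x : V → ZMod 2) : Prop := ∃ c : ZMod 2, ∀ p ∈ S, x p = c

/-- the scalar product -/
def dt (S : Finset V) (f x : V → ZMod 2) : ZMod 2 := ∑ q ∈ S, f q * x q

/-- the row of the Laplacian -/
def Lp (S : Finset V) (A : V → V → ZMod 2) (x : V → ZMod 2) (p : V) : ZMod 2 :=
  ∑ q ∈ S, A p q * (x p + x q)

/-- the first system has only the constant solutions -/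
def GA (S : Finset V) (A : V → V → ZMod 2) (t g : V → ZMod 2) : Prop :=
  ∀ x : V → ZMod 2, (∀ p ∈ S, Lp S A x p + g p * dt S t x = 0) → Cst S x

/-- the second system has only the constant solutions -/
def GB (S : Finset V) (A : V → V → ZMod 2) (t h : V → ZMod 2) : Prop :=
  ∀ x : V → ZMod 2, (∀ p ∈ S, Lp S A x p + t p * x p + t p * dt S h x = 0) → Cst S x

/-- the third system has only the constant solutions -/
def GC (S : Finset V) (A : V → V → ZMod 2) (t g h : V → ZMod 2) : Prop :=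
  ∀ (x : V → ZMod 2) (y : ZMod 2), dt S t x = 0 →
    (∀ p ∈ S, Lp S A x p + y * (t p + g p + h p) = 0) → Cst S x ∧ y = 0

/-- the transpose of the first system -/
def GAt (S : Finset V) (A : V → V → ZMod 2) (t g : V → ZMod 2) : Prop :=
  ∀ x : V → ZMod 2, (∀ p ∈ S, Lp S A x p + t p * dt S t x + t p * x p + t p * dt S g x = 0) → Cst S x

/-- the transpose of the second system -/
def GBt (S : Finset V) (A : V → V → ZMod 2) (t h : V → ZMod 2) : Prop :=
  ∀ x : V → ZMod 2, (∀ p ∈ S, Lp S A x p + t p * dt S t x + h p * dt S t x = 0) → Cst S x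

/-- the conditions on the labels and the symbols -/
structure Hyp (S : Finset V) (A : V → V → ZMod 2) (t g h : V → ZMod 2) : Prop where
  rc : ∀ p ∈ S, ∀ q ∈ S, p ≠ q → A p q + A q p = t p * t q
  t0 : ∑ p ∈ S, t p = 0
  g1 : ∑ p ∈ S, g p = 1
  h1 : ∑ p ∈ S, h p = 1

end sys

/-- AW-XOR: exactly one of the first two systems has only the constant solutions if and only if the
third one has only the constant solutions. -/
def S_XOR : Prop := ∀ (V : Type) (S : Finset V) (A : V → V → ZMod 2) (t g h : V → ZMod 2),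
  Hyp S A t g h → (GC S A t g h ↔ ¬ (GA S A t g ↔ GB S A t h))

/-- AW-TR: transposition. -/
def S_TR : Prop := ∀ (V : Type) (S : Finset V) (A : V → V → ZMod 2) (t g h : V → ZMod 2),
  Hyp S A t g h → (GA S A t g → GAt S A t g) ∧ (GB S A t h → GBt S A t h)

/-! ### The general law -/

section law

variable {U J : Type} [Fintype U] [Fintype J]

/-- the rows of the system with the fixed part `N` and the random part `R` -/
def rowG (N : U ⊕ J → U ⊕ J → ZMod 2) (R : J → J → ZMod 2) (x : U ⊕ J → ZMod 2) :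
    U ⊕ J → ZMod 2
  | Sum.inl u => ∑ l, N (Sum.inl u) l * x l
  | Sum.inr k => ∑ l, N (Sum.inr k) l * x l +
      ∑ l, R k l * (x (Sum.inr k) + x (Sum.inr l))

/-- the vector with the entries `one u` for `u` in `U`, and `1` for the elements of `J` -/
def onev (one : U → ZMod 2) : U ⊕ J → ZMod 2 := Sum.elim one fun _ => 1

/-- the only solutions are zero and `onev` -/
def GdG (one : U → ZMod 2) (N : U ⊕ J → U ⊕ J → ZMod 2) (R : J → J → ZMod 2) : Prop :=
  ∀ x : U ⊕ J → ZMod 2, (∀ k, rowG N R x k = 0) → x = 0 ∨ x = onev one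

/-- the conditions on the fixed part -/
structure HypG (one : U → ZMod 2) (N : U ⊕ J → U ⊕ J → ZMod 2) (t a b : J → ZMod 2) : Prop where
  right : ∀ k, ∑ l, N k l * onev one l = 0
  leftU : ∀ u : U, ∑ k, onev one k * N k (Sum.inl u) = 0
  leftJ : ∀ l : J, ∑ k, onev one k * N k (Sum.inr l) = t l * (∑ j, t j + 1)
  alt : ∀ k l : J, k ≠ l →
    N (Sum.inr k) (Sum.inr l) + N (Sum.inr l) (Sum.inr k) = a k * b l + b k * a l
  rows : ∀ w : U → ZMod 2, w ≠ 0 → ∃ l : J, ∑ u, w u * N (Sum.inl u) (Sum.inr l) ≠ 0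
  cols : ∀ c : U → ZMod 2, c ≠ 0 → ∃ k : J, ∑ u, N (Sum.inr k) (Sum.inl u) * c u ≠ 0

/-- the alternating form (the sum of the matrix and its transpose) -/
def PP (N : U ⊕ J → U ⊕ J → ZMod 2) (t : J → ZMod 2) (x y : U ⊕ J → ZMod 2) : ZMod 2 :=
  ∑ k, ∑ l, (N k l + N l k) * (x k * y l) +
    ((∑ j, t j * x (Sum.inr j)) * (∑ j, t j * y (Sum.inr j)) +
      ∑ j, t j * (x (Sum.inr j) * y (Sum.inr j)))

/-- the tuples of vectors that can lie in the kernel -/
def OKg (N : U ⊕ J → U ⊕ J → ZMod 2) (t : J → ZMod 2) {m : ℕ} (x : Fin m → U ⊕ J → ZMod 2) : Prop :=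
  (∀ i u, ∑ l, N (Sum.inl u) l * x i l = 0) ∧ ∀ i j, PP N t (x i) (x j) = 0

end law

/-- AW-LA1: the number of the random matrices with given values at `m` vectors which are independent
modulo the constants. -/
def S_LA1 : Prop := ∀ (J : Type) [Fintype J] [LinearOrder J] (t : J → ZMod 2) (m : ℕ)
  (d : Fin m → J → ZMod 2) (b : Fin m → J → ZMod 2), IndJ d →
  (univ.filter fun α : prs J → ZMod 2 =>
      ∀ i k, ∑ l, ext t α k l * (d i k + d i l) = b i k).card * 2 ^ (m * (Fintype.card J - 1)) =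
    if (∀ i, ∑ k, b i k = ∑ l, t l * (∑ j, t j + 1) * d i l) ∧
        (∀ i j, ∑ k, (d j k * b i k + d i k * b j k) =
          (∑ k, t k * d i k) * (∑ k, t k * d j k) + ∑ k, t k * (d i k * d j k))
      then 2 ^ ((prs J).card + m.choose 2) else 0

/-- AW-LA2: the number of the tuples that can lie in the kernel. -/
def S_LA2 : Prop := ∀ (m : ℕ) (δ : ℝ), 0 < δ → ∃ V : ℕ, ∀ (U J : Type) [Fintype U] [Fintype J]
  (one : U → ZMod 2) (N : U ⊕ J → U ⊕ J → ZMod 2) (t a b : J → ZMod 2),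
  4 * Fintype.card U + V ≤ (univ.filter fun j => t j = 1).card → HypG one N t a b →
  |((univ.filter fun x : Fin m → U ⊕ J → ZMod 2 =>
      IndJ (fun i k => x i (Sum.inr k)) ∧ OKg N t x).card : ℝ) * 2 ^ m.choose 2 /
      2 ^ (m * Fintype.card J) - 1| ≤ δ

/-- the probability that a random completion is good is close to `c2` -/
def LAGE (ε : ℝ) (V : ℕ) : Prop := ∀ (U J : Type) [Fintype U] [Fintype J] [LinearOrder J]
  (one : U → ZMod 2) (N : U ⊕ J → U ⊕ J → ZMod 2) (t a b : J → ZMod 2),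
  4 * Fintype.card U + V ≤ (univ.filter fun j => t j = 1).card → HypG one N t a b →
  |((univ.filter fun α : prs J → ZMod 2 => GdG one N (ext t α)).card : ℝ) /
      2 ^ (prs J).card - c2| ≤ ε

/-- AW-LAG: the general law. -/
def S_LAG : Prop := ∀ ε : ℝ, 0 < ε → ∃ V : ℕ, LAGE ε V

/-- AW-LA3: the assembly. -/
def S_LA3 : Prop := S_MOM → S_LA1 → S_LA2 → S_LAG

/-! ### The law for the two systems -/

section mm

variable {U J : Type} [Fintype U] [Fintype J]

/-- the matrix of the symbols: `A u v = [u / v]`, `B u l = [u / p l]`, `R k l = [p k / p l]` -/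
def MM (tU : U → ZMod 2) (tJ : J → ZMod 2) (A : U → U → ZMod 2) (B : U → J → ZMod 2)
    (R : J → J → ZMod 2) : U ⊕ J → U ⊕ J → ZMod 2
  | Sum.inl u, Sum.inl v => A u v
  | Sum.inl u, Sum.inr l => B u l
  | Sum.inr k, Sum.inl u => B u k + tU u * tJ k
  | Sum.inr k, Sum.inr l => R k l

/-- the labels of the large primes are not degenerate -/
def NdL (tJ gJ hJ : J → ZMod 2) (B : U → J → ZMod 2) : Prop :=
  ∀ (w : U → ZMod 2) (e₁ e₂ e₃ : ZMod 2), ((∃ u, w u ≠ 0) ∨ e₁ ≠ 0 ∨ e₂ ≠ 0 ∨ e₃ ≠ 0) →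
    ∃ k, ∑ u, w u * B u k + e₁ * tJ k + e₂ * gJ k + e₃ * hJ k ≠ 0

end mm

/-- both systems are good with probability close to `c2 / 2` -/
def LAJE (ε : ℝ) (V : ℕ) : Prop := ∀ (U J : Type) [Fintype U] [Fintype J] [LinearOrder J]
  (tU gU hU : U → ZMod 2) (tJ gJ hJ : J → ZMod 2) (A : U → U → ZMod 2) (B : U → J → ZMod 2),
  4 * Fintype.card U + V ≤ (univ.filter fun j => tJ j = 1).card →
  ∑ u, tU u + ∑ j, tJ j = 0 → ∑ u, gU u + ∑ j, gJ j = 1 → ∑ u, hU u + ∑ j, hJ j = 1 →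
  (∀ u v, u ≠ v → A u v + A v u = tU u * tU v) → NdL tJ gJ hJ B →
  |((univ.filter fun α : prs J → ZMod 2 =>
      GA (univ : Finset (U ⊕ J)) (MM tU tJ A B (ext tJ α)) (Sum.elim tU tJ) (Sum.elim gU gJ) ∧
      GB (univ : Finset (U ⊕ J)) (MM tU tJ A B (ext tJ α)) (Sum.elim tU tJ)
        (Sum.elim hU hJ)).card : ℝ) / 2 ^ (prs J).card - c2 / 2| ≤ ε

/-- AW-LAJ: the law for the two systems. -/
def S_LAJ : Prop := ∀ ε : ℝ, 0 < ε → ∃ V : ℕ, LAJE ε V

/-- AW-LAS: the law for the two systems from the general one. -/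
def S_LAS : Prop := S_XOR → S_LAG → S_LAJ

/-! ### The labels of the primes -/

/-- reduction modulo `aR ^ 3` -/
noncomputable def r8 : RR →+* ZMod 8 := ev (6 : ZMod 8) (by decide)

/-- `0` if `π ≡ 1` modulo `aR ^ 3` (the other primary primes are `≡ 5`) -/
noncomputable def gg (π : RR) : ZMod 2 := if r8 π = 1 then 0 else 1

/-- `0` if `π ≡ ± 1` modulo `(cj aR) ^ 3` -/
noncomputable def hh (π : RR) : ZMod 2 := if r8 (cj π) = 1 ∨ r8 (cj π) = 7 then 0 else 1

/-- the matrix of the symbols -/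
noncomputable def cA (p q : RR) : ZMod 2 := cs q p

/-- the good sets -/
def G2 (S : Finset RR) : Prop := GA S cA tt gg ∧ GB S cA tt hh

/-- the class modulo `8` -/
def C5 (S : Finset RR) : Prop := ∑ π ∈ S, gg π = 1 ∧ ∑ π ∈ S, hh π = 1

/-- the sets of the class with norm at most `X` -/
noncomputable def S5 (X : ℕ) : Finset (Finset RR) := (SS X).filter C5

/-- FINAL: the proportion of the good sets -/
def S_DQ5 : Prop := Filter.Tendsto
  (fun X : ℕ => (((S5 X).filter G2).card : ℝ) / ((S5 X).card : ℝ)) Filter.atTop (nhds (c2 / 2))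

/-- the class of the elements -/
def Cls5 (D : RR) : Prop := Squarefree D ∧ (8 : RR) ∣ D - 5 ∧ ¬ fR ∣ D

/-- the good elements -/
def Good5 (D : RR) : Prop := Cls5 D ∧ G2 (QK.PD D)

/-- FINAL, in terms of the elements `D`. -/
def S_DEN5 : Prop := Filter.Tendsto
  (fun X : ℕ => ({D : RR | nrm D ≤ X ∧ Good5 D}.ncard : ℝ) /
    ({D : RR | nrm D ≤ X ∧ Cls5 D}.ncard : ℝ)) Filter.atTop (nhds (c2 / 2))

/-- AW-SUP: the supplementary laws of reciprocity. -/
def S_SUP : Prop := ∀ π : RR, Pq π →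
  cs π (-1) = tt π ∧ cs π (-aR) = gg π ∧ cs π (-cj aR) = hh π

/-- AW-CLS: the class of `D` in terms of the labels of the prime divisors. -/
def S_CLS : Prop :=
  (∀ D : RR, Cls5 D → (∀ π ∈ QK.PD D, Pq π) ∧ ∏ π ∈ QK.PD D, π = D ∧ ∑ π ∈ QK.PD D, tt π = 0 ∧ C5 (QK.PD D)) ∧
  ∀ S : Finset RR, (∀ π ∈ S, Pq π) → ∑ π ∈ S, tt π = 0 → C5 S → Cls5 (∏ π ∈ S, π)

/-- AW-NS: the translation. -/
def S_NS5 : Prop := S_CLS → S_DQ5 → S_DEN5

/-- AW-LOW: the class has positive density. -/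
def S_LOW5 : Prop := ∃ (c : ℝ) (X₀ : ℕ), 0 < c ∧ ∀ X : ℕ, X₀ ≤ X → c * X ≤ ((S5 X).card : ℝ)

/-! ### Boxes -/

/-- the labels of the large primes with respect to the small ones are not degenerate -/
def Nd3 (S₀ S₁ : Finset RR) : Prop :=
  ∀ (w : RR → ZMod 2) (e₁ e₂ e₃ : ZMod 2), ((∃ u ∈ S₀, w u ≠ 0) ∨ e₁ ≠ 0 ∨ e₂ ≠ 0 ∨ e₃ ≠ 0) →
    ∃ π ∈ S₁, ∑ u ∈ S₀, w u * cs π u + e₁ * tt π + e₂ * gg π + e₃ * hh π ≠ 0

/-- the same, and the union is in the class modulo `8` -/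
def Nd5 (S₀ S₁ : Finset RR) : Prop :=
  (∑ u ∈ S₀, gg u + ∑ π ∈ S₁, gg π = 1) ∧ (∑ u ∈ S₀, hh u + ∑ π ∈ S₁, hh π = 1) ∧ Nd3 S₀ S₁

/-- AW-BOX: the count in a box. -/
def S_BOX5 : Prop := RecP → S_EQ → ∀ (ε : ℝ) (V : ℕ), LAJE ε V →
  ∀ (ι : Type) [Fintype ι] [LinearOrder ι]
  (C : ι → Finset RR) (X : ι → ℕ) (κ : ℝ) (S₀ : Finset RR), 0 ≤ κ → (∀ i, (C i).card ≤ X i) →
  HB C X κ → (∀ u ∈ S₀, Pq u) → (∀ i, ∀ π ∈ C i, Pq π ∧ π ∉ S₀) →
  (∀ i l, i ≠ l → Disjoint (C i) (C l)) →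
  (∀ p ∈ Fintype.piFinset C, 4 * S₀.card + V ≤ (univ.filter fun i => tt (p i) = 1).card ∧
    ∑ u ∈ S₀, tt u + ∑ i, tt (p i) = 0) →
  |(((Fintype.piFinset C).filter fun p => Nd5 S₀ (univ.image p) ∧ G2 (S₀ ∪ univ.image p)).card : ℝ) -
      c2 / 2 * (((Fintype.piFinset C).filter fun p => Nd5 S₀ (univ.image p)).card : ℝ)| ≤
    ε * (((Fintype.piFinset C).filter fun p => Nd5 S₀ (univ.image p)).card : ℝ) +
    2 ^ ((S₀.card + 3) * Fintype.card ι + (prs ι).card) * (κ * ∏ j, (X j : ℝ))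

/-- AW-KEY: the sum over the boxes. -/
def S_KEY5 : Prop := RecP → S_BIL → S_EQ → S_BOX5 → ∃ C : ℝ, 1 ≤ C ∧
  ∀ (ε : ℝ) (V : ℕ), 0 < ε → LAJE ε V →
  ∀ (X z H k N : ℕ) (κ : ℝ), 1 ≤ X → 1 ≤ H → 1 ≤ z → 0 ≤ κ → C ≤ κ ^ 24 * z →
  (H : ℝ) * Real.log X < N →
  |(((Rg X z H k V).filter fun S => Nd5 (sm z S) (la z S) ∧ G2 S).card : ℝ) -
      c2 / 2 * (((Rg X z H k V).filter fun S => Nd5 (sm z S) (la z S)).card : ℝ)| ≤
    ε * ((Rg X z H k V).card : ℝ) +
    (9 * N + 9 : ℝ) ^ k * (3 ^ (9 * k ^ 2 + 9) * κ) * (X * (1 + Real.log X))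

/-- AW-BAD: few sets have degenerate labels. -/
def S_BAD5 : Prop := ∀ ε : ℝ, 0 < ε → ∃ X₀ : ℕ, ∀ X : ℕ, X₀ ≤ X →
  (((SS X).filter fun S => S.card ≤ kk X ∧ ¬ Nd3 (sm (zz X) S) (la (zz X) S)).card : ℝ) ≤ ε * X

/-- AW-ASY: the final asymptotics. -/
def S_ASY5 : Prop := RecP → S_BIL → S_EQ → S_LAJ → S_BOX5 → S_KEY5 → S_CNT → S_BAD5 → S_FEW →
  S_LOW5 → S_C2 → S_DQ5

/-! ### Characters -/

/-- the even character modulo `8` -/
noncomputable def c8 (a : ZMod 8) : ℂ := if a = 1 ∨ a = 7 then 1 else if a = 3 ∨ a = 5 then -1 else 0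

/-- the real characters -/
noncomputable def xr5 (n : RR) (i j k : ℕ) (a : RR) : ℂ :=
  jac n a * kp a ^ i * c8 (r8 a) ^ j * c8 (r8 (cj a)) ^ k

/-- AW-HALL: sums of multiplicative functions twisted by a real character. -/
def S_HALL5 : Prop := ∃ C : ℝ, 1 ≤ C ∧ ∀ (n : RR) (i j k : ℕ), PS n → i < 2 → j < 2 → k < 2 →
  (n ≠ 1 ∨ i ≠ 0 ∨ j ≠ 0 ∨ k ≠ 0) → ∀ T : ℕ,
  ∑ a ∈ SB T, mf (fun π => (2 + (xr5 n i j k π).re) / 3) a ≤
    C * (lgn (nrm n)) ^ (1 / 3 : ℝ) * (T * (lgn T) ^ (-(1 / 3) : ℝ))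

/-- AW-BAD, from the character sums. -/
def S_BADH : Prop := RecP → S_HALL5 → S_MERT → S_BAD5

end Pool.Agent.N848.AW
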